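import Mathlib

set_option autoImplicit false
open MeasureTheory Set FourierTransform

namespace Pool.Agent.Helper78.NA

variable {V : Type*} [NormedAddCommGroup V] [InnerProductSpace ℝ V] [FiniteDimensional ℝ V]
  [MeasurableSpace V] [BorelSpace V]

theorem selfadj {f g : V → ℂ} (hf : Integrable f) (hg : Integrable g) :
    ∫ w, 𝓕 f w * g w = ∫ x, f x * 𝓕 g x := by
  have := VectorFourier.integral_fourierIntegral_smul_eq_flip (L := innerₗ V)
    Real.continuous_fourierChar continuous_inner hf hg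
  simpa using! this

theorem selfadj_inv {f g : V → ℂ} (hf : Integrable f) (hg : Integrable g) :
    ∫ w, 𝓕⁻ f w * g w = ∫ x, f x * 𝓕⁻ g x := by
  have h1 : ∫ w, 𝓕⁻ f w * g w = ∫ w, 𝓕 f w * g (-w) := by
    rw [← integral_neg_eq_self]
    congr 1; ext w
    rw [Real.fourierInv_eq_fourier_neg, neg_neg]
  rw [h1, selfadj hf hg.comp_neg]
  congr 1; ext x
  congr 1
  rw [Real.fourierInv_eq_fourier_comp_neg]

theorem gauss_integrable {b : ℂ} (hb : 0 < b.re) :
    Integrable (fun w : V => Complex.exp (-b * ‖w‖ ^ 2)) := by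
  have := GaussianFourier.integrable_cexp_neg_mul_sq_norm_add hb 0 (0 : V)
  simpa using this

theorem fourier_norm_le (f : V → ℂ) (w : V) : ‖𝓕 f w‖ ≤ ∫ x, ‖f x‖ := by
  exact VectorFourier.norm_fourierIntegral_le_integral_norm _ _ _ f w

theorem fourier_cont {f : V → ℂ} (hf : Integrable f) : Continuous (𝓕 f) :=
  VectorFourier.fourierIntegral_continuous Real.continuous_fourierChar
    (innerSL ℝ).continuous₂ hf

theorem fourierInv_norm_le (f : V → ℂ) (w : V) : ‖𝓕⁻ f w‖ ≤ ∫ x, ‖f x‖ := by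
  rw [Real.fourierInv_eq_fourier_neg]
  exact fourier_norm_le f _

theorem fourierInv_cont {f : V → ℂ} (hf : Integrable f) : Continuous (𝓕⁻ f) := by
  have : (𝓕⁻ f) = fun w => 𝓕 f (-w) := by
    ext w; rw [Real.fourierInv_eq_fourier_neg]
  rw [this]
  exact (fourier_cont hf).comp continuous_neg

theorem gauss_pair {b : ℂ} (hb : 0 < b.re) {f g : V → ℂ} (hf : Integrable f) (hg : Integrable g) :
    ∫ w, 𝓕 f w * (𝓕⁻ g w * Complex.exp (-b * ‖w‖ ^ 2)) =
      ∫ u, f u * ∫ v, g v * 𝓕 (fun w : V => Complex.exp (-b * ‖w‖ ^ 2)) (u - v) := by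
  have hG := gauss_integrable (V := V) hb
  have hh : Integrable (fun w => 𝓕⁻ g w * Complex.exp (-b * ‖w‖ ^ 2)) := by
    apply hG.bdd_mul (c := ∫ x, ‖g x‖) (fourierInv_cont hg).aestronglyMeasurable
    exact Filter.Eventually.of_forall (fun w => fourierInv_norm_le g w)
  rw [selfadj hf hh]
  congr 1; ext u
  congr 1
  rw [Real.fourier_eq]
  have hψ : Integrable (fun w : V => Real.fourierChar (-inner ℝ w u) • Complex.exp (-b * ‖w‖ ^ 2)) := by
    rw [Real.fourierIntegral_convergent_iff]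
    exact hG
  have h1 : ∫ w, Real.fourierChar (-inner ℝ w u) • (𝓕⁻ g w * Complex.exp (-b * ‖w‖ ^ 2))
      = ∫ w, 𝓕⁻ g w * (Real.fourierChar (-inner ℝ w u) • Complex.exp (-b * ‖w‖ ^ 2)) := by
    congr 1; ext w
    simp only [Circle.smul_def, smul_eq_mul]
    ring
  rw [h1, selfadj_inv hg hψ]
  congr 1; ext v
  congr 1
  rw [Real.fourierInv_eq, Real.fourier_eq]
  congr 1; ext w
  simp only [Circle.smul_def, smul_eq_mul]
  rw [← mul_assoc]
  congr 1
  rw [← Circle.coe_mul, ← AddChar.map_add_eq_mul]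
  congr 2
  rw [inner_sub_right]
  ring

end Pool.Agent.Helper78.NA
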