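import Mathlib
import Pool.Agent.Helper78.Gauss

set_option autoImplicit false
open MeasureTheory Set FourierTransform

namespace Pool.Agent.Helper78.NA

variable {V : Type*} [NormedAddCommGroup V] [InnerProductSpace ℝ V] [FiniteDimensional ℝ V]
  [MeasurableSpace V] [BorelSpace V]

theorem norm_fourier_gauss {η : ℝ} (hη : 0 < η) (x : V) :
    ‖𝓕 (fun w : V => Complex.exp (-(η : ℂ) * ‖w‖ ^ 2)) x‖ =
      (Real.pi / η) ^ ((Module.finrank ℝ V : ℝ) / 2) * Real.exp (-(Real.pi ^ 2 / η) * ‖x‖ ^ 2) := by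
  rw [fourier_gaussian_innerProductSpace (by simpa using hη), norm_mul, Complex.norm_exp]
  congr 1
  · have h1 : ((Real.pi : ℂ) / (η : ℂ)) = ((Real.pi / η : ℝ) : ℂ) := by push_cast; rfl
    rw [h1, Complex.norm_cpow_eq_rpow_re_of_pos (by positivity)]
    congr 1
    have : ((Module.finrank ℝ V : ℂ) / 2) = (((Module.finrank ℝ V : ℝ) / 2 : ℝ) : ℂ) := by push_cast; rfl
    rw [this, Complex.ofReal_re]
  · congr 1
    have : (-(Real.pi : ℂ) ^ 2 * (‖x‖ : ℂ) ^ 2 / (η : ℂ)) = ((-(Real.pi ^ 2 / η) * ‖x‖ ^ 2 : ℝ) : ℂ) := by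
      push_cast; ring
    rw [this, Complex.ofReal_re]

theorem integral_norm_fourier_gauss {η : ℝ} (hη : 0 < η) :
    ∫ x : V, ‖𝓕 (fun w : V => Complex.exp (-(η : ℂ) * ‖w‖ ^ 2)) x‖ = 1 := by
  simp_rw [norm_fourier_gauss hη]
  rw [integral_const_mul, GaussianFourier.integral_rexp_neg_mul_sq_norm (by positivity)]
  have h2 : Real.pi / (Real.pi ^ 2 / η) = (Real.pi / η)⁻¹ := by
    field_simp
  rw [h2, Real.inv_rpow (by positivity)]
  exact mul_inv_cancel₀ (by positivity)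

theorem integrable_fourier_gauss {b : ℂ} (hb : 0 < b.re) :
    Integrable (𝓕 (fun w : V => Complex.exp (-b * ‖w‖ ^ 2))) := by
  have h : (𝓕 (fun w : V => Complex.exp (-b * ‖w‖ ^ 2))) = fun w : V =>
      (Real.pi / b) ^ ((Module.finrank ℝ V : ℂ) / 2) * Complex.exp (-(Real.pi ^ 2 / b) * ‖w‖ ^ 2) := by
    ext w
    rw [fourier_gaussian_innerProductSpace hb]
    congr 2
    ring
  rw [h]
  apply Integrable.const_mul
  apply gauss_integrable
  have : ((Real.pi : ℂ) ^ 2 / b).re = Real.pi ^ 2 * b.re / Complex.normSq b := by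
    rw [show (Real.pi : ℂ) ^ 2 = ((Real.pi ^ 2 : ℝ) : ℂ) by push_cast; rfl, Complex.div_re,
      Complex.ofReal_re, Complex.ofReal_im]
    simp
  rw [this]
  have hb0 : b ≠ 0 := by intro h; simp [h] at hb
  have := Complex.normSq_pos.mpr hb0
  positivity

theorem fourierInv_conj (f : V → ℂ) (w : V) :
    𝓕⁻ (fun x => (starRingEnd ℂ) (f x)) w = (starRingEnd ℂ) (𝓕 f w) := by
  rw [Real.fourierInv_eq, Real.fourier_eq, ← integral_conj]
  congr 1; ext v
  simp only [Circle.smul_def, smul_eq_mul, map_mul]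
  congr 1
  rw [← Circle.coe_inv_eq_conj, ← AddChar.map_neg_eq_inv, neg_neg]

theorem bessel {η : ℝ} (hη : 0 < η) {f : V → ℂ} (hf : Integrable f)
    (hf2 : Integrable (fun x => ‖f x‖ ^ 2)) :
    ∫ w, ‖𝓕 f w‖ ^ 2 * Real.exp (-η * ‖w‖ ^ 2) ≤ ∫ x, ‖f x‖ ^ 2 := by
  set G : V → ℂ := 𝓕 (fun w : V => Complex.exp (-(η : ℂ) * ‖w‖ ^ 2)) with hG
  have hb : 0 < (η : ℂ).re := by simpa using hη
  have hGi : Integrable G := integrable_fourier_gauss hb
  have hG1 : ∫ x, ‖G x‖ = 1 := integral_norm_fourier_gauss hη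
  have hfc : Integrable (fun x => (starRingEnd ℂ) (f x)) := by
    rw [← integrable_norm_iff]
    · simpa using hf.norm
    · exact Complex.continuous_conj.comp_aestronglyMeasurable hf.aestronglyMeasurable
  have h1 := gauss_pair hb hf hfc
  have h2 : (∫ w, 𝓕 f w * (𝓕⁻ (fun x => (starRingEnd ℂ) (f x)) w * Complex.exp (-(η : ℂ) * ‖w‖ ^ 2)))
      = ((∫ w, ‖𝓕 f w‖ ^ 2 * Real.exp (-η * ‖w‖ ^ 2) : ℝ) : ℂ) := by
    rw [← integral_complex_ofReal]
    congr 1; ext w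
    rw [fourierInv_conj, ← mul_assoc, Complex.mul_conj, Complex.normSq_eq_norm_sq]
    push_cast
    ring_nf
  rw [h2] at h1
  have h3 : ‖((∫ w, ‖𝓕 f w‖ ^ 2 * Real.exp (-η * ‖w‖ ^ 2) : ℝ) : ℂ)‖
      = ∫ w, ‖𝓕 f w‖ ^ 2 * Real.exp (-η * ‖w‖ ^ 2) := by
    rw [Complex.norm_real, Real.norm_eq_abs, abs_of_nonneg]
    exact integral_nonneg (fun w => by positivity)
  rw [← h3, h1]
  -- product integrability
  have hp2 : Integrable (fun p : V × V => ‖f p.2‖ ^ 2 * ‖G (p.1 - p.2)‖) (volume.prod volume) := by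
    have := hf2.convolution_integrand (ContinuousLinearMap.mul ℝ ℝ) hGi.norm (μ := volume)
    simpa using this
  have hae : ∀ᵐ u : V, Integrable (fun v => ‖f v‖ ^ 2 * ‖G (u - v)‖) := hp2.prod_right_ae
  have hint : Integrable (fun u : V => ∫ v, ‖f v‖ ^ 2 * ‖G (u - v)‖) := hp2.integral_prod_left
  have hswap : ∫ u : V, ∫ v : V, ‖f v‖ ^ 2 * ‖G (u - v)‖ = ∫ x, ‖f x‖ ^ 2 := by
    rw [integral_integral_swap hp2]
    congr 1; ext v
    rw [integral_const_mul, integral_sub_right_eq_self (fun x => ‖G x‖), hG1, mul_one]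
  have hgi : Integrable (fun u : V => (1 / 2) * (‖f u‖ ^ 2 + ∫ v, ‖f v‖ ^ 2 * ‖G (u - v)‖)) :=
    (hf2.add hint).const_mul _
  have hfinal : ‖∫ u, f u * ∫ v, (starRingEnd ℂ) (f v) * G (u - v)‖
      ≤ ∫ u : V, (1 / 2) * (‖f u‖ ^ 2 + ∫ v, ‖f v‖ ^ 2 * ‖G (u - v)‖) := by
    apply norm_integral_le_of_norm_le hgi
    filter_upwards [hae] with u hu
    have hGu : Integrable (fun v => ‖G (u - v)‖) := (hGi.comp_sub_left u).norm
    have hGu1 : ∫ v, ‖G (u - v)‖ = 1 := by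
      rw [integral_sub_left_eq_self (fun x => ‖G x‖)]; exact hG1
    rw [norm_mul]
    calc ‖f u‖ * ‖∫ v, (starRingEnd ℂ) (f v) * G (u - v)‖
        ≤ ‖f u‖ * ∫ v, ‖(starRingEnd ℂ) (f v) * G (u - v)‖ := by
          gcongr; exact norm_integral_le_integral_norm _
      _ = ∫ v, ‖f u‖ * (‖f v‖ * ‖G (u - v)‖) := by
          rw [← integral_const_mul]
          congr 1; ext v
          rw [norm_mul, RCLike.norm_conj]
      _ ≤ ∫ v, (1 / 2) * (‖f u‖ ^ 2 * ‖G (u - v)‖ + ‖f v‖ ^ 2 * ‖G (u - v)‖) := by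
          apply integral_mono_of_nonneg
          · exact Filter.Eventually.of_forall (fun v => by positivity)
          · exact ((hGu.const_mul _).add hu).const_mul _
          · refine Filter.Eventually.of_forall (fun v => ?_)
            have : 0 ≤ (‖f u‖ - ‖f v‖) ^ 2 * ‖G (u - v)‖ := by positivity
            simp only
            nlinarith
      _ = (1 / 2) * (‖f u‖ ^ 2 + ∫ v, ‖f v‖ ^ 2 * ‖G (u - v)‖) := by
          rw [integral_const_mul, integral_add (hGu.const_mul _) hu, integral_const_mul, hGu1, mul_one]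
  refine hfinal.trans (le_of_eq ?_)
  rw [integral_const_mul, integral_add hf2 hint, hswap]
  ring

end Pool.Agent.Helper78.NA
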