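import Mathlib

set_option autoImplicit false
open MeasureTheory Set

namespace Pool.Agent.Helper78.NA

/-- van der Corput estimate (second derivative test) for the phase `τ/(2a) + β a`, with the
monotone weight `exp (-γ (a - a₀))`, uniformly in `β` and `γ ≥ 0`. -/
theorem vdc (τ β γ a₀ a₁ : ℝ) (hτ : 0 < τ) (hγ : 0 ≤ γ) (h0 : 0 < a₀) (h01 : a₀ ≤ a₁) :
    ‖∫ a in a₀..a₁, Complex.exp (-(Complex.I * (τ / (2 * a) + β * a)) - γ * (a - a₀))‖
      ≤ 8 * Real.sqrt (a₁ ^ 3 / τ) := by
  have h1 : 0 < a₁ := lt_of_lt_of_le h0 h01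
  set l : ℝ := τ / a₁ ^ 3 with hl
  have hlpos : 0 < l := by positivity
  set r : ℝ := Real.sqrt l with hr
  have hrpos : 0 < r := Real.sqrt_pos.mpr hlpos
  have hrsq : r ^ 2 = l := Real.sq_sqrt hlpos.le
  set g : ℝ → ℝ := fun a => β - τ / (2 * a ^ 2) with hg
  set g' : ℝ → ℝ := fun a => τ / a ^ 3 with hg'
  set W : ℝ → ℝ := fun a => Real.exp (-γ * (a - a₀)) with hW
  set E : ℝ → ℂ := fun a => Complex.exp (-(Complex.I * (τ / (2 * a) + β * a)) - γ * (a - a₀)) with hE
  have hgder : ∀ a, 0 < a → HasDerivAt g (g' a) a := by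
    intro a ha
    have h2 : HasDerivAt (fun a : ℝ => 2 * a ^ 2) (2 * (2 * a)) a := by
      simpa using (hasDerivAt_pow 2 a).const_mul 2
    have h3 : HasDerivAt (fun a : ℝ => τ / (2 * a ^ 2)) (-(τ * (2 * (2 * a))) / (2 * a ^ 2) ^ 2) a := by
      have := (hasDerivAt_const a τ).fun_div h2 (by positivity)
      simpa using this
    have h4 := h3.const_sub β
    refine h4.congr_deriv ?_
    simp only [hg']
    field_simp
  have hWder : ∀ a, HasDerivAt W (-γ * W a) a := by
    intro a
    have h2 : HasDerivAt (fun a : ℝ => -γ * (a - a₀)) (-γ) a := by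
      simpa using ((hasDerivAt_id a).sub_const a₀).const_mul (-γ)
    have := h2.exp
    convert this using 1
    simp only [hW]; ring
  have hEder : ∀ a, 0 < a → HasDerivAt E (E a * (-(Complex.I * (g a : ℂ)) - γ)) a := by
    intro a ha
    have ha' : (a : ℂ) ≠ 0 := by exact_mod_cast ha.ne'
    have hid : HasDerivAt (fun a : ℝ => (a : ℂ)) 1 a := Complex.ofRealCLM.hasDerivAt (x := a)
    have h2 : HasDerivAt (fun a : ℝ => (τ : ℂ) / (2 * (a : ℂ))) (-((τ : ℂ) * (2 * 1)) / (2 * (a : ℂ)) ^ 2) a := by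
      have h2' : HasDerivAt (fun a : ℝ => 2 * (a : ℂ)) (2 * 1) a := hid.const_mul 2
      have := (hasDerivAt_const a (τ : ℂ)).fun_div h2' (by simpa using ha')
      simpa using this
    have h3 : HasDerivAt (fun a : ℝ => (β : ℂ) * (a : ℂ)) ((β : ℂ) * 1) a := hid.const_mul _
    have h4 : HasDerivAt (fun a : ℝ => (γ : ℂ) * ((a : ℂ) - (a₀ : ℂ))) ((γ : ℂ) * 1) a :=
      (hid.sub_const _).const_mul _
    have h5 := (((h2.fun_add h3).const_mul Complex.I).fun_neg.fun_sub h4).cexp
    refine h5.congr_deriv ?_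
    simp only [hE, hg]
    push_cast
    congr 1
    field_simp
    ring
  have hEnorm : ∀ a, 0 < a → ‖E a‖ = W a := by
    intro a ha
    simp only [hE, hW, Complex.norm_exp]
    congr 1
    have : -(Complex.I * ((τ : ℂ) / (2 * (a : ℂ)) + (β : ℂ) * (a : ℂ))) - (γ : ℂ) * ((a : ℂ) - (a₀ : ℂ))
        = Complex.I * ((-(τ / (2 * a) + β * a) : ℝ) : ℂ) + ((-γ * (a - a₀) : ℝ) : ℂ) := by
      push_cast; ring
    rw [this, Complex.add_re, Complex.I_mul_re, Complex.ofReal_im, Complex.ofReal_re]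
    simp
  set B : ℝ → ℝ := fun a => g a / (l + g a ^ 2) with hB
  have hden : ∀ a, 0 < l + g a ^ 2 := fun a => by positivity
  have hBder : ∀ a, 0 < a → HasDerivAt B (g' a * (l - g a ^ 2) / (l + g a ^ 2) ^ 2) a := by
    intro a ha
    have h2 := hgder a ha
    have h3 := (h2.fun_pow 2).const_add l
    have h4 := h2.fun_div h3 (hden a).ne'
    refine h4.congr_deriv ?_
    congr 1
    push_cast
    ring
  have hBbd : ∀ a, |B a| ≤ 1 / (2 * r) := by
    intro a
    simp only [hB]
    rw [abs_div, abs_of_pos (hden a), div_le_div_iff₀ (hden a) (by positivity)]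
    have : 0 ≤ (r - |g a|) ^ 2 := sq_nonneg _
    have h2 : |g a| ^ 2 = g a ^ 2 := sq_abs _
    nlinarith
  have hlg : ∀ a, 0 < a → a ≤ a₁ → l ≤ g' a := by
    intro a ha ha1
    simp only [hl, hg']
    have : a ^ 3 ≤ a₁ ^ 3 := pow_le_pow_left₀ ha.le ha1 3
    exact div_le_div_of_nonneg_left hτ.le (by positivity) this
  set F : ℝ → ℂ := fun a => Complex.I * (B a : ℂ) * E a with hF
  set F' : ℝ → ℂ := fun a => Complex.I * ((g' a * (l - g a ^ 2) / (l + g a ^ 2) ^ 2 : ℝ) : ℂ) * E a
    + Complex.I * (B a : ℂ) * (E a * (-(Complex.I * (g a : ℂ)) - γ)) with hF'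
  have hFder : ∀ a, 0 < a → HasDerivAt F (F' a) a := by
    intro a ha
    have h2 := ((hBder a ha).ofReal_comp.const_mul Complex.I).fun_mul (hEder a ha)
    exact h2
  set S : ℝ → ℝ := fun a => 2 / r * Real.arctan (g a / r) - 1 / (2 * r) * W a with hS
  set S' : ℝ → ℝ := fun a => 2 * g' a / (l + g a ^ 2) + 1 / (2 * r) * (γ * W a) with hS'
  have hSder : ∀ a, 0 < a → HasDerivAt S (S' a) a := by
    intro a ha
    have h2 := ((hgder a ha).div_const r).arctan.const_mul (2 / r)
    have h3 := (hWder a).const_mul (1 / (2 * r))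
    have h4 := h2.fun_sub h3
    refine h4.congr_deriv ?_
    simp only [hS']
    have h5 : 1 + (g a / r) ^ 2 = (l + g a ^ 2) / l := by
      rw [div_pow, hrsq]; field_simp
    rw [h5]
    have := (hden a).ne'
    have h6 : l = r * r := by rw [← hrsq]; ring
    rw [h6] at this ⊢
    field_simp
    ring
  have hkey : ∀ a, 0 < a → a ≤ a₁ → a₀ ≤ a → ‖E a - F' a‖ ≤ S' a := by
    intro a ha ha1 ha0
    have hW1 : W a ≤ 1 := by
      simp only [hW]
      rw [Real.exp_le_one_iff]
      nlinarith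
    have hW0 : 0 < W a := Real.exp_pos _
    have hx : E a - F' a = E a * (((l / (l + g a ^ 2) : ℝ) : ℂ)
        - Complex.I * ((g' a * (l - g a ^ 2) / (l + g a ^ 2) ^ 2 : ℝ) : ℂ)
        + Complex.I * ((γ * B a : ℝ) : ℂ)) := by
      simp only [hF']
      have h2 : ((l / (l + g a ^ 2) : ℝ) : ℂ) = 1 - (B a : ℂ) * (g a : ℂ) := by
        simp only [hB]
        have := (hden a).ne'
        have h3 : (l / (l + g a ^ 2) : ℝ) = 1 - (g a / (l + g a ^ 2)) * g a := by
          field_simp; ring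
        rw [h3]; push_cast; ring
      rw [h2]
      push_cast
      ring_nf
      rw [Complex.I_sq]
      ring
    rw [hx, norm_mul, hEnorm a ha]
    have hn : ‖((l / (l + g a ^ 2) : ℝ) : ℂ)
        - Complex.I * ((g' a * (l - g a ^ 2) / (l + g a ^ 2) ^ 2 : ℝ) : ℂ)
        + Complex.I * ((γ * B a : ℝ) : ℂ)‖ ≤ g' a / (l + g a ^ 2) + g' a / (l + g a ^ 2) + γ * (1 / (2 * r)) := by
      refine (norm_add_le _ _).trans (add_le_add ((norm_sub_le _ _).trans (add_le_add ?_ ?_)) ?_)
      · rw [Complex.norm_real, Real.norm_eq_abs, abs_of_nonneg (by positivity)]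
        exact div_le_div_of_nonneg_right (hlg a ha ha1) (hden a).le
      · rw [norm_mul, Complex.norm_I, one_mul, Complex.norm_real, Real.norm_eq_abs, abs_div, abs_mul,
          abs_of_pos (show 0 < g' a by simp only [hg']; positivity), abs_of_pos (show 0 < (l + g a ^ 2) ^ 2 by positivity)]
        rw [div_le_div_iff₀ (by positivity) (hden a)]
        have h3 : |l - g a ^ 2| ≤ l + g a ^ 2 := by
          rw [abs_le]; constructor <;> nlinarith [sq_nonneg (g a)]
        have hgp : 0 < g' a := by simp only [hg']; positivity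
        have : g' a * |l - g a ^ 2| * (l + g a ^ 2) ≤ g' a * (l + g a ^ 2) * (l + g a ^ 2) := by
          gcongr
        nlinarith
      · rw [norm_mul, Complex.norm_I, one_mul, Complex.norm_real, Real.norm_eq_abs, abs_mul, abs_of_nonneg hγ]
        exact mul_le_mul_of_nonneg_left (hBbd a) hγ
    have hgp : 0 < g' a := by simp only [hg']; positivity
    calc W a * ‖((l / (l + g a ^ 2) : ℝ) : ℂ)
        - Complex.I * ((g' a * (l - g a ^ 2) / (l + g a ^ 2) ^ 2 : ℝ) : ℂ)
        + Complex.I * ((γ * B a : ℝ) : ℂ)‖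
        ≤ W a * (g' a / (l + g a ^ 2) + g' a / (l + g a ^ 2) + γ * (1 / (2 * r))) := by gcongr
      _ = W a * (2 * g' a / (l + g a ^ 2)) + 1 / (2 * r) * (γ * W a) := by ring
      _ ≤ 1 * (2 * g' a / (l + g a ^ 2)) + 1 / (2 * r) * (γ * W a) := by
          gcongr
      _ = S' a := by simp only [hS']; ring
  -- continuity statements
  have hpos : ∀ a ∈ uIcc a₀ a₁, 0 < a := by
    intro a ha
    rw [uIcc_of_le h01] at ha
    exact lt_of_lt_of_le h0 ha.1
  have hcg : ContinuousOn g (uIcc a₀ a₁) := fun a ha => (hgder a (hpos a ha)).continuousAt.continuousWithinAt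
  have hcg' : ContinuousOn g' (uIcc a₀ a₁) := by
    intro a ha
    have := hpos a ha
    apply ContinuousAt.continuousWithinAt
    simp only [hg']
    exact continuousAt_const.div (continuousAt_id.pow 3) (by positivity)
  have hcW : ContinuousOn W (uIcc a₀ a₁) := fun a ha => (hWder a).continuousAt.continuousWithinAt
  have hcE : ContinuousOn E (uIcc a₀ a₁) := fun a ha => (hEder a (hpos a ha)).continuousAt.continuousWithinAt
  have hcB : ContinuousOn B (uIcc a₀ a₁) := fun a ha => (hBder a (hpos a ha)).continuousAt.continuousWithinAt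
  have hcF' : ContinuousOn F' (uIcc a₀ a₁) := by
    simp only [hF']
    have h2 : ContinuousOn (fun a => (g' a * (l - g a ^ 2) / (l + g a ^ 2) ^ 2 : ℝ)) (uIcc a₀ a₁) := by
      apply ContinuousOn.div
      · exact hcg'.mul (continuousOn_const.sub (hcg.pow 2))
      · exact (continuousOn_const.add (hcg.pow 2)).pow 2
      · intro a _; have := hden a; positivity
    have h3 := Complex.continuous_ofReal.comp_continuousOn h2
    have h4 := Complex.continuous_ofReal.comp_continuousOn hcB
    have h5 := Complex.continuous_ofReal.comp_continuousOn hcg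
    exact ((continuousOn_const.mul h3).mul hcE).add
      ((continuousOn_const.mul h4).mul (hcE.mul (((continuousOn_const.mul h5).neg).sub continuousOn_const)))
  have hcS' : ContinuousOn S' (uIcc a₀ a₁) := by
    simp only [hS']
    apply ContinuousOn.add
    · apply ContinuousOn.div
      · exact continuousOn_const.mul hcg'
      · exact continuousOn_const.add (hcg.pow 2)
      · intro a _; exact (hden a).ne'
    · exact continuousOn_const.mul (continuousOn_const.mul hcW)
  have hiE : IntervalIntegrable E volume a₀ a₁ := hcE.intervalIntegrable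
  have hiF' : IntervalIntegrable F' volume a₀ a₁ := hcF'.intervalIntegrable
  have hiS' : IntervalIntegrable S' volume a₀ a₁ := hcS'.intervalIntegrable
  have e1 : ∫ a in a₀..a₁, F' a = F a₁ - F a₀ :=
    intervalIntegral.integral_eq_sub_of_hasDerivAt (fun a ha => hFder a (hpos a ha)) hiF'
  have e2 : ∫ a in a₀..a₁, S' a = S a₁ - S a₀ :=
    intervalIntegral.integral_eq_sub_of_hasDerivAt (fun a ha => hSder a (hpos a ha)) hiS'
  have e3 : ∫ a in a₀..a₁, E a = (∫ a in a₀..a₁, (E a - F' a)) + (F a₁ - F a₀) := by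
    rw [intervalIntegral.integral_sub hiE hiF', e1]; ring
  have e4 : ‖∫ a in a₀..a₁, (E a - F' a)‖ ≤ S a₁ - S a₀ := by
    rw [← e2]
    apply intervalIntegral.norm_integral_le_of_norm_le h01 _ hiS'
    refine Filter.Eventually.of_forall (fun a ha => ?_)
    exact hkey a (lt_of_lt_of_le h0 ha.1.le) ha.2 ha.1.le
  have hFn : ∀ a, 0 < a → a₀ ≤ a → ‖F a‖ ≤ 1 / (2 * r) := by
    intro a ha ha0
    have hW1 : W a ≤ 1 := by
      simp only [hW]
      rw [Real.exp_le_one_iff]
      nlinarith
    simp only [hF]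
    rw [norm_mul, norm_mul, Complex.norm_I, one_mul, Complex.norm_real, Real.norm_eq_abs, hEnorm a ha]
    calc |B a| * W a ≤ 1 / (2 * r) * 1 := by
          apply mul_le_mul (hBbd a) hW1 (Real.exp_pos _).le (by positivity)
      _ = _ := by ring
  have hSdiff : S a₁ - S a₀ ≤ (2 * Real.pi + 1 / 2) / r := by
    simp only [hS]
    have h2 := Real.arctan_lt_pi_div_two (g a₁ / r)
    have h3 := Real.neg_pi_div_two_lt_arctan (g a₀ / r)
    have h4 : 0 < W a₁ := Real.exp_pos _
    have h5 : W a₀ = 1 := by simp [hW]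
    rw [h5]
    have h6 : 2 / r * Real.arctan (g a₁ / r) ≤ 2 / r * (Real.pi / 2) := by gcongr
    have h7 : 2 / r * (-(Real.pi / 2)) ≤ 2 / r * Real.arctan (g a₀ / r) := by gcongr
    have h8 : 0 < 1 / (2 * r) * W a₁ := by positivity
    have h9 : (2 * Real.pi + 1 / 2) / r = 2 / r * (Real.pi / 2) - 2 / r * (-(Real.pi / 2)) + 1 / (2 * r) * 1 := by
      field_simp; ring
    rw [h9]
    linarith
  have hfin : ‖∫ a in a₀..a₁, E a‖ ≤ 8 / r := by
    rw [e3]
    have h2 := hFn a₁ h1 h01
    have h3 := hFn a₀ h0 le_rfl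
    have h4 : ‖(∫ a in a₀..a₁, (E a - F' a)) + (F a₁ - F a₀)‖ ≤ (2 * Real.pi + 1 / 2) / r + (1 / (2 * r) + 1 / (2 * r)) := by
      refine (norm_add_le _ _).trans (add_le_add (e4.trans hSdiff) ((norm_sub_le _ _).trans (add_le_add h2 h3)))
    refine h4.trans ?_
    have h5 : (2 * Real.pi + 1 / 2) / r + (1 / (2 * r) + 1 / (2 * r)) = (2 * Real.pi + 3 / 2) / r := by
      field_simp; ring
    rw [h5]
    apply div_le_div_of_nonneg_right _ hrpos.le
    have := Real.pi_lt_d2
    linarith
  have hr8 : 8 / r = 8 * Real.sqrt (a₁ ^ 3 / τ) := by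
    have h2 : a₁ ^ 3 / τ = l⁻¹ := by rw [hl, inv_div]
    rw [h2, Real.sqrt_inv, ← hr]; ring
  rw [← hr8]
  exact hfin

end Pool.Agent.Helper78.NA
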