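import Mathlib
import Pool.Agent.Helper78.Bessel
import Pool.Agent.Helper78.VdC

set_option autoImplicit false
open MeasureTheory Set FourierTransform

namespace Pool.Agent.Helper78.NA

variable {V : Type*} [NormedAddCommGroup V] [InnerProductSpace ℝ V] [FiniteDimensional ℝ V]
  [MeasurableSpace V] [BorelSpace V]

theorem cpow_scale {z : ℂ} (hz : z ≠ 0) {a : ℝ} (ha : 0 < a) (s : ℝ) :
    (z / (a : ℂ)) ^ (s : ℂ) = z ^ (s : ℂ) * ((a ^ (-s) : ℝ) : ℂ) := by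
  have ha' : (a : ℂ) ≠ 0 := by exact_mod_cast ha.ne'
  have h1 : z / (a : ℂ) = z * ((a⁻¹ : ℝ) : ℂ) := by push_cast; rfl
  have h2 : z / (a : ℂ) ≠ 0 := div_ne_zero hz ha'
  rw [Complex.cpow_def_of_ne_zero h2, Complex.cpow_def_of_ne_zero hz, h1,
    Complex.log_mul_ofReal _ (by positivity) _ hz, Real.rpow_def_of_pos ha, Complex.ofReal_exp,
    ← Complex.exp_add]
  congr 1
  rw [Real.log_inv]
  push_cast
  ring

/-- The regularised kernel of scale `a`, at the point `iτ` of the imaginary axis. -/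
theorem kernel_rep (τ : ℝ) {a : ℝ} (ha : 0 < a) (x : V) :
    ((a ^ (-((Module.finrank ℝ V : ℝ) / 2)) : ℝ) : ℂ) * Complex.exp (-((1 - Complex.I * τ) * ‖x‖ ^ 2 / (2 * a)))
      = (((1 - Complex.I * τ) / (2 * Real.pi)) ^ (((Module.finrank ℝ V : ℝ) / 2 : ℝ) : ℂ))⁻¹ *
        𝓕 (fun w : V => Complex.exp (-(2 * Real.pi ^ 2 * a / (1 - Complex.I * τ)) * ‖w‖ ^ 2)) x := by
  set n := Module.finrank ℝ V with hn
  have hz : (1 - Complex.I * τ : ℂ) ≠ 0 := by
    intro h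
    have := congrArg Complex.re h
    simp at this
  have hpi : (Real.pi : ℂ) ≠ 0 := by exact_mod_cast Real.pi_ne_zero
  have ha' : (a : ℂ) ≠ 0 := by exact_mod_cast ha.ne'
  have hre : 0 < (2 * Real.pi ^ 2 * a / (1 - Complex.I * τ) : ℂ).re := by
    have h1 : (2 * Real.pi ^ 2 * a / (1 - Complex.I * τ) : ℂ) = ((2 * Real.pi ^ 2 * a : ℝ) : ℂ) / (1 - Complex.I * τ) := by
      push_cast; rfl
    rw [h1, Complex.div_re]
    have h2 : 0 < Complex.normSq (1 - Complex.I * τ) := Complex.normSq_pos.mpr hz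
    simp only [Complex.ofReal_re, Complex.ofReal_im]
    have h3 : (1 - Complex.I * τ : ℂ).re = 1 := by simp
    rw [h3]
    have := Real.pi_pos
    simp only [mul_one, zero_mul, zero_div, add_zero]
    positivity
  rw [fourier_gaussian_innerProductSpace hre]
  have h4 : (Real.pi : ℂ) / (2 * Real.pi ^ 2 * a / (1 - Complex.I * τ)) = ((1 - Complex.I * τ) / (2 * Real.pi)) / (a : ℂ) := by
    field_simp
  have h5 : ((Module.finrank ℝ V : ℂ) / 2) = (((n : ℝ) / 2 : ℝ) : ℂ) := by push_cast; rfl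
  have hz2 : (1 - Complex.I * τ) / (2 * (Real.pi : ℂ)) ≠ 0 := div_ne_zero hz (mul_ne_zero two_ne_zero hpi)
  rw [h4, h5, cpow_scale hz2 ha, ← mul_assoc, ← mul_assoc, inv_mul_cancel₀, one_mul]
  · congr 2
    field_simp
  · rw [Ne, Complex.cpow_eq_zero_iff]
    tauto

theorem norm_const (τ : ℝ) (hτ : 0 < τ) (s : ℝ) (hs : 0 ≤ s) :
    ‖(((1 - Complex.I * τ) / (2 * Real.pi)) ^ ((s : ℝ) : ℂ))⁻¹‖ ≤ (2 * Real.pi / τ) ^ s := by
  rw [norm_inv, Complex.norm_cpow_real]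
  have h1 : τ / (2 * Real.pi) ≤ ‖(1 - Complex.I * τ) / (2 * (Real.pi : ℂ))‖ := by
    rw [norm_div]
    have h2 : ‖(2 * (Real.pi : ℂ))‖ = 2 * Real.pi := by
      rw [norm_mul, Complex.norm_real, Real.norm_of_nonneg Real.pi_pos.le]; simp
    rw [h2]
    apply div_le_div_of_nonneg_right _ (by positivity)
    have h3 := Complex.abs_im_le_norm (1 - Complex.I * τ)
    simp at h3
    rwa [abs_of_pos hτ] at h3
  have h4 : (2 * Real.pi / τ) ^ s = ((τ / (2 * Real.pi)) ^ s)⁻¹ := by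
    rw [← Real.inv_rpow (by positivity), inv_div]
  rw [h4]
  apply inv_anti₀ (by positivity)
  exact Real.rpow_le_rpow (by positivity) h1 hs

theorem kl (τ a₀ a₁ : ℝ) (hτ : 0 < τ) (h0 : 0 < a₀) (h01 : a₀ ≤ a₁) {f g : V → ℂ}
    (hf : Integrable f) (hf2 : Integrable (fun x => ‖f x‖ ^ 2))
    (hg : Integrable g) (hg2 : Integrable (fun x => ‖g x‖ ^ 2)) :
    ‖∫ a in a₀..a₁, Complex.exp (-(Complex.I * τ * (a + 1 / a) / 2)) *
      (((a ^ (-((Module.finrank ℝ V : ℝ) / 2)) : ℝ) : ℂ) *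
       ∫ u, f u * ∫ v, g v * Complex.exp (-((1 - Complex.I * τ) * ‖u - v‖ ^ 2 / (2 * a))))‖
    ≤ (2 * Real.pi / τ) ^ ((Module.finrank ℝ V : ℝ) / 2) * (8 * Real.sqrt (a₁ ^ 3 / τ)) *
        ((∫ x, ‖f x‖ ^ 2) / 2 + (∫ x, ‖g x‖ ^ 2) / 2) := by
  set n := Module.finrank ℝ V with hn
  set cτ : ℂ := (((1 - Complex.I * τ) / (2 * Real.pi)) ^ (((n : ℝ) / 2 : ℝ) : ℂ))⁻¹ with hcτ
  have hz : (1 - Complex.I * τ : ℂ) ≠ 0 := by
    intro h
    have := congrArg Complex.re h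
    simp at this
  set bb : ℝ → ℂ := fun a => 2 * Real.pi ^ 2 * a / (1 - Complex.I * τ) with hbb
  have hbb_eq : ∀ a : ℝ, bb a = ((2 * Real.pi ^ 2 / (1 + τ ^ 2) : ℝ) : ℂ) * (1 + Complex.I * τ) * a := by
    intro a
    simp only [hbb]
    have h1 : (1 + (τ : ℂ) ^ 2) = (1 - Complex.I * τ) * (1 + Complex.I * τ) := by
      ring_nf; rw [Complex.I_sq]; ring
    have h2 : (1 + Complex.I * τ : ℂ) ≠ 0 := by
      intro h
      have := congrArg Complex.re h
      simp at this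
    push_cast
    rw [h1]
    field_simp
  set κ : ℝ := 2 * Real.pi ^ 2 / (1 + τ ^ 2) with hκ
  have hκpos : 0 < κ := by have := Real.pi_pos; positivity
  have hbb_re : ∀ a : ℝ, (bb a).re = κ * a := by
    intro a
    rw [hbb_eq]
    simp
  set η : ℝ := κ * a₀ with hη
  have hηpos : 0 < η := by positivity
  -- rewrite the inner integrals
  have hin : ∀ a : ℝ, 0 < a → (((a ^ (-((n : ℝ) / 2)) : ℝ) : ℂ) *
       ∫ u, f u * ∫ v, g v * Complex.exp (-((1 - Complex.I * τ) * ‖u - v‖ ^ 2 / (2 * a))))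
       = cτ * ∫ w, 𝓕 f w * (𝓕⁻ g w * Complex.exp (-(bb a) * ‖w‖ ^ 2)) := by
    intro a ha
    have hre : 0 < (bb a).re := by rw [hbb_re]; positivity
    rw [gauss_pair hre hf hg, ← integral_const_mul, ← integral_const_mul]
    refine integral_congr_ae (Filter.Eventually.of_forall (fun u => ?_))
    simp only
    rw [mul_left_comm, mul_left_comm cτ]
    congr 1
    rw [← integral_const_mul, ← integral_const_mul]
    refine integral_congr_ae (Filter.Eventually.of_forall (fun v => ?_))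
    simp only
    rw [mul_left_comm, mul_left_comm cτ, kernel_rep τ ha]
  -- the function after Fourier transform
  set Φ : ℝ → V → ℂ := fun a w => Complex.exp (-(Complex.I * τ * (a + 1 / a) / 2)) *
      (𝓕 f w * (𝓕⁻ g w * Complex.exp (-(bb a) * ‖w‖ ^ 2))) with hΦ
  have h1 : ∫ a in a₀..a₁, Complex.exp (-(Complex.I * τ * (a + 1 / a) / 2)) *
      (((a ^ (-((n : ℝ) / 2)) : ℝ) : ℂ) *
       ∫ u, f u * ∫ v, g v * Complex.exp (-((1 - Complex.I * τ) * ‖u - v‖ ^ 2 / (2 * a))))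
      = cτ * ∫ a in a₀..a₁, ∫ w, Φ a w := by
    rw [← intervalIntegral.integral_const_mul]
    apply intervalIntegral.integral_congr
    intro a ha
    rw [uIcc_of_le h01] at ha
    simp only
    rw [hin a (lt_of_lt_of_le h0 ha.1), mul_left_comm, ← integral_const_mul]
  have hexpn : ∀ a : ℝ, ‖Complex.exp (-(Complex.I * τ * (a + 1 / a) / 2))‖ = 1 := by
    intro a
    have : -(Complex.I * τ * (a + 1 / a) / 2) = ((-(τ * (a + 1 / a) / 2) : ℝ) : ℂ) * Complex.I := by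
      push_cast; ring
    rw [this, Complex.norm_exp_ofReal_mul_I]
  have hgn : ∀ (a : ℝ) (w : V), ‖Complex.exp (-(bb a) * ‖w‖ ^ 2)‖ = Real.exp (-(κ * a) * ‖w‖ ^ 2) := by
    intro a w
    rw [Complex.norm_exp]
    congr 1
    have : ((-(bb a)) * (‖w‖ : ℂ) ^ 2) = (-(bb a)) * ((‖w‖ ^ 2 : ℝ) : ℂ) := by push_cast; rfl
    rw [this, Complex.re_mul_ofReal, Complex.neg_re, hbb_re]
  set D : ℝ := (∫ x, ‖f x‖) * (∫ x, ‖g x‖) with hD
  have hD0 : 0 ≤ D := by
    apply mul_nonneg <;> exact integral_nonneg (fun _ => norm_nonneg _)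
  have hΦn : ∀ a, a₀ ≤ a → ∀ w, ‖Φ a w‖ ≤ D * Real.exp (-η * ‖w‖ ^ 2) := by
    intro a ha w
    simp only [hΦ]
    rw [norm_mul, hexpn, one_mul, norm_mul, norm_mul, hgn, ← mul_assoc]
    apply mul_le_mul
    · exact mul_le_mul (fourier_norm_le f w) (fourierInv_norm_le g w) (norm_nonneg _)
        (integral_nonneg (fun _ => norm_nonneg _))
    · apply Real.exp_le_exp.mpr
      have : κ * a₀ ≤ κ * a := by gcongr
      have h2 : 0 ≤ ‖w‖ ^ 2 := by positivity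
      simp only [hη]
      nlinarith
    · positivity
    · exact hD0
  have hgi : Integrable (fun w : V => Real.exp (-η * ‖w‖ ^ 2)) := by
    have h2 := (gauss_integrable (V := V) (b := (η : ℂ)) (by simpa using hηpos)).norm
    refine h2.congr (Filter.Eventually.of_forall (fun w => ?_))
    simp only
    rw [Complex.norm_exp]
    congr 1
    have : (-(η : ℂ) * (‖w‖ : ℂ) ^ 2) = ((-η * ‖w‖ ^ 2 : ℝ) : ℂ) := by push_cast; rfl
    rw [this, Complex.ofReal_re]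
  have hΦmeas : AEStronglyMeasurable (fun p : ℝ × V => Φ p.1 p.2)
      ((volume.restrict (Ioc a₀ a₁)).prod volume) := by
    apply Measurable.aestronglyMeasurable
    simp only [hΦ, hbb]
    have h2 : Measurable (𝓕 f) := (fourier_cont hf).measurable
    have h3 : Measurable (𝓕⁻ g) := (fourierInv_cont hg).measurable
    fun_prop
  have hΦint : Integrable (fun p : ℝ × V => Φ p.1 p.2) ((volume.restrict (Ioc a₀ a₁)).prod volume) := by
    have h2 : Integrable (fun p : ℝ × V => (1 : ℝ) * (D * Real.exp (-η * ‖p.2‖ ^ 2)))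
        ((volume.restrict (Ioc a₀ a₁)).prod volume) := by
      apply Integrable.mul_prod (f := fun _ : ℝ => (1 : ℝ)) (g := fun w : V => D * Real.exp (-η * ‖w‖ ^ 2))
      · exact integrable_const _
      · exact hgi.const_mul _
    apply h2.mono' hΦmeas
    have h3 : ∀ᵐ p ∂((volume.restrict (Ioc a₀ a₁)).prod (volume : Measure V)), p.1 ∈ Ioc a₀ a₁ := by
      have : ∀ᵐ a ∂(volume.restrict (Ioc a₀ a₁)), a ∈ Ioc a₀ a₁ := ae_restrict_mem measurableSet_Ioc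
      exact Measure.quasiMeasurePreserving_fst.ae this
    filter_upwards [h3] with p hp
    rw [one_mul]
    exact hΦn p.1 hp.1.le p.2
  have h2 : ∫ a in a₀..a₁, ∫ w, Φ a w = ∫ w, ∫ a in a₀..a₁, Φ a w := by
    rw [intervalIntegral.integral_of_le h01]
    simp_rw [intervalIntegral.integral_of_le h01]
    exact integral_integral_swap hΦint
  have h3 : ∀ w : V, ∫ a in a₀..a₁, Φ a w = (𝓕 f w * 𝓕⁻ g w) * ((Real.exp (-η * ‖w‖ ^ 2) : ℝ) : ℂ) *
      ∫ a in a₀..a₁, Complex.exp (-(Complex.I * (τ / (2 * a) + ((τ / 2 + κ * ‖w‖ ^ 2 * τ : ℝ) : ℂ) * a))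
        - ((κ * ‖w‖ ^ 2 : ℝ) : ℂ) * (a - a₀)) := by
    intro w
    rw [← intervalIntegral.integral_const_mul]
    apply intervalIntegral.integral_congr
    intro a ha
    rw [uIcc_of_le h01] at ha
    have ha' : (a : ℂ) ≠ 0 := by exact_mod_cast (lt_of_lt_of_le h0 ha.1).ne'
    simp only [hΦ]
    have hexp : Complex.exp (-(Complex.I * τ * (a + 1 / a) / 2)) * Complex.exp (-(bb a) * ‖w‖ ^ 2)
        = ((Real.exp (-η * ‖w‖ ^ 2) : ℝ) : ℂ) *
        Complex.exp (-(Complex.I * (τ / (2 * a) + ((τ / 2 + κ * ‖w‖ ^ 2 * τ : ℝ) : ℂ) * a))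
        - ((κ * ‖w‖ ^ 2 : ℝ) : ℂ) * (a - a₀)) := by
      rw [Complex.ofReal_exp, ← Complex.exp_add, ← Complex.exp_add]
      congr 1
      rw [hbb_eq]
      simp only [hη]
      push_cast
      field_simp
      ring
    linear_combination (𝓕 f w * 𝓕⁻ g w) * hexp
  have h4 : ∀ w : V, ‖∫ a in a₀..a₁, Φ a w‖ ≤ (8 * Real.sqrt (a₁ ^ 3 / τ)) *
      (‖𝓕 f w‖ ^ 2 * Real.exp (-η * ‖w‖ ^ 2) / 2 + ‖𝓕⁻ g w‖ ^ 2 * Real.exp (-η * ‖w‖ ^ 2) / 2) := by
    intro w
    rw [h3 w, norm_mul, norm_mul, norm_mul, Complex.norm_real, Real.norm_of_nonneg (Real.exp_pos _).le]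
    have h5 := vdc τ (τ / 2 + κ * ‖w‖ ^ 2 * τ) (κ * ‖w‖ ^ 2) a₀ a₁ hτ (by positivity) h0 h01
    calc _ ≤ ‖𝓕 f w‖ * ‖𝓕⁻ g w‖ * Real.exp (-η * ‖w‖ ^ 2) * (8 * Real.sqrt (a₁ ^ 3 / τ)) := by
          gcongr
      _ ≤ _ := by
          have h6 : 0 ≤ (‖𝓕 f w‖ - ‖𝓕⁻ g w‖) ^ 2 * Real.exp (-η * ‖w‖ ^ 2) * (8 * Real.sqrt (a₁ ^ 3 / τ)) := by
            positivity
          nlinarith
  have hi1 : Integrable (fun w => ‖𝓕 f w‖ ^ 2 * Real.exp (-η * ‖w‖ ^ 2)) := by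
    have hm : AEStronglyMeasurable (fun w => ‖𝓕 f w‖ ^ 2) (volume : Measure V) :=
      ((fourier_cont hf).norm.pow 2).aestronglyMeasurable
    apply hgi.bdd_mul (c := (∫ x, ‖f x‖) ^ 2) hm
    refine Filter.Eventually.of_forall (fun w => ?_)
    rw [Real.norm_of_nonneg (by positivity)]
    exact pow_le_pow_left₀ (norm_nonneg _) (fourier_norm_le f w) 2
  have hi2 : Integrable (fun w => ‖𝓕⁻ g w‖ ^ 2 * Real.exp (-η * ‖w‖ ^ 2)) := by
    have hm : AEStronglyMeasurable (fun w => ‖𝓕⁻ g w‖ ^ 2) (volume : Measure V) :=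
      ((fourierInv_cont hg).norm.pow 2).aestronglyMeasurable
    apply hgi.bdd_mul (c := (∫ x, ‖g x‖) ^ 2) hm
    refine Filter.Eventually.of_forall (fun w => ?_)
    rw [Real.norm_of_nonneg (by positivity)]
    exact pow_le_pow_left₀ (norm_nonneg _) (fourierInv_norm_le g w) 2
  have hb1 := bessel hηpos hf hf2
  have hb2 : ∫ w, ‖𝓕⁻ g w‖ ^ 2 * Real.exp (-η * ‖w‖ ^ 2) ≤ ∫ x, ‖g x‖ ^ 2 := by
    have h5 := bessel hηpos hg hg2
    rw [← integral_neg_eq_self] at h5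
    refine le_trans (le_of_eq ?_) h5
    congr 1; ext w
    rw [Real.fourierInv_eq_fourier_neg, norm_neg]
  rw [h1, h2, norm_mul, mul_assoc]
  apply mul_le_mul (norm_const τ hτ _ (by positivity)) _ (norm_nonneg _) (by positivity)
  have h6 : ‖∫ w, ∫ a in a₀..a₁, Φ a w‖ ≤ ∫ w, (8 * Real.sqrt (a₁ ^ 3 / τ)) *
      (‖𝓕 f w‖ ^ 2 * Real.exp (-η * ‖w‖ ^ 2) / 2 + ‖𝓕⁻ g w‖ ^ 2 * Real.exp (-η * ‖w‖ ^ 2) / 2) := by
    apply norm_integral_le_of_norm_le
    · exact ((hi1.div_const 2).add (hi2.div_const 2)).const_mul _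
    · exact Filter.Eventually.of_forall h4
  refine h6.trans ?_
  rw [integral_const_mul, integral_add (hi1.div_const 2) (hi2.div_const 2), integral_div, integral_div]
  gcongr

end Pool.Agent.Helper78.NA
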