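import Mathlib

set_option autoImplicit false
open MeasureTheory Set

namespace Pool.Agent.Helper78.NA

/-- Consequence of the Phragmen–Lindelöf principle in the right half-plane. -/
theorem pl_bound (J : ℂ → ℂ) (hJ : Differentiable ℂ J) (M K D : ℝ) (n : ℕ)
    (hM : ∀ z : ℂ, 0 ≤ z.re → ‖J z‖ ≤ M * Real.exp (K * z.re))
    (hD : ∀ τ : ℝ, |τ| ^ (n + 1) * ‖J (τ * Complex.I)‖ ^ 2 ≤ D) (η : ℝ) (hη : 0 < η)
    (x : ℝ) (hx : 0 ≤ x) :
    x ^ (n + 1) * ‖J x‖ ^ 2 ≤ D * Real.exp ((2 * K + η) * x) := by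
  set F : ℂ → ℂ := fun z => Complex.exp (-(((2 * K + η : ℝ) : ℂ) * z)) * (z ^ (n + 1) * J z ^ 2) with hF
  have hFn : ∀ z : ℂ, ‖F z‖ = Real.exp (-((2 * K + η) * z.re)) * (‖z‖ ^ (n + 1) * ‖J z‖ ^ 2) := by
    intro z
    simp only [hF]
    rw [norm_mul, norm_mul, norm_pow, norm_pow, Complex.norm_exp, Complex.neg_re, Complex.re_ofReal_mul]
  have hFb : ∀ z : ℂ, 0 ≤ z.re → ‖F z‖ ≤ M ^ 2 * ‖z‖ ^ (n + 1) * Real.exp (-(η * z.re)) := by
    intro z hz
    rw [hFn]
    have h1 : ‖J z‖ ^ 2 ≤ (M * Real.exp (K * z.re)) ^ 2 := pow_le_pow_left₀ (norm_nonneg _) (hM z hz) 2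
    have h2 : (M * Real.exp (K * z.re)) ^ 2 = M ^ 2 * Real.exp (2 * K * z.re) := by
      rw [mul_pow, ← Real.exp_nat_mul]; congr 2; push_cast; ring
    calc _ ≤ Real.exp (-((2 * K + η) * z.re)) * (‖z‖ ^ (n + 1) * (M ^ 2 * Real.exp (2 * K * z.re))) := by
          rw [← h2]; gcongr
      _ = M ^ 2 * ‖z‖ ^ (n + 1) * (Real.exp (-((2 * K + η) * z.re)) * Real.exp (2 * K * z.re)) := by ring
      _ = _ := by rw [← Real.exp_add]; congr 2; ring
  have hd : Differentiable ℂ F := by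
    simp only [hF]
    fun_prop
  have hexp1 : ∀ y : ℝ, 0 ≤ y → y ^ (n + 1) ≤ ((n + 1).factorial : ℝ) * Real.exp y := by
    intro y hy
    have := Real.pow_div_factorial_le_exp y hy (n + 1)
    rw [div_le_iff₀ (by positivity)] at this
    linarith
  have key : ∀ z : ℂ, 0 ≤ z.re → ‖F z‖ ≤ D := by
    intro z hz
    apply PhragmenLindelof.right_half_plane_of_tendsto_zero_on_real hd.diffContOnCl _ _ _ hz
    · refine ⟨1, by norm_num, 1, ?_⟩
      apply Asymptotics.IsBigO.of_bound (M ^ 2 * ((n + 1).factorial : ℝ))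
      rw [Filter.eventually_inf_principal]
      refine Filter.Eventually.of_forall (fun w hw => ?_)
      simp only [mem_ofPred_eq] at hw
      refine (hFb w hw.le).trans ?_
      rw [Real.norm_of_nonneg (Real.exp_pos _).le, Real.rpow_one, one_mul]
      have h1 : Real.exp (-(η * w.re)) ≤ 1 := by
        rw [Real.exp_le_one_iff]; nlinarith
      have h2 := hexp1 ‖w‖ (norm_nonneg _)
      calc M ^ 2 * ‖w‖ ^ (n + 1) * Real.exp (-(η * w.re)) ≤ M ^ 2 * (((n + 1).factorial : ℝ) * Real.exp ‖w‖) * 1 := by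
            gcongr
        _ = _ := by ring
    · have h1 : Filter.Tendsto (fun x : ℝ => M ^ 2 * (x ^ (n + 1) * Real.exp (-(η * x)))) Filter.atTop (nhds 0) := by
        have h2 := Real.tendsto_pow_mul_exp_neg_atTop_nhds_zero (n + 1)
        have h3 : Filter.Tendsto (fun x : ℝ => η * x) Filter.atTop Filter.atTop :=
          Filter.tendsto_id.const_mul_atTop hη
        have h4 := (h2.comp h3).const_mul (M ^ 2 * (η ^ (n + 1))⁻¹)
        rw [mul_zero] at h4
        refine h4.congr (fun x => ?_)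
        simp only [Function.comp]
        rw [mul_pow]
        field_simp
      apply squeeze_zero_norm' _ h1
      filter_upwards [Filter.eventually_ge_atTop (0 : ℝ)] with y hy
      refine (hFb y (by simpa using hy)).trans (le_of_eq ?_)
      rw [Complex.norm_real, Real.norm_of_nonneg hy, Complex.ofReal_re]
      ring
    · intro τ
      rw [hFn]
      have h1 : ((τ : ℂ) * Complex.I).re = 0 := by simp
      have h2 : ‖(τ : ℂ) * Complex.I‖ = |τ| := by simp
      rw [h1, h2]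
      simpa using hD τ
  have h1 := key x (by simpa using hx)
  rw [hFn, Complex.norm_real, Real.norm_of_nonneg hx, Complex.ofReal_re] at h1
  have h2 : x ^ (n + 1) * ‖J x‖ ^ 2 = Real.exp ((2 * K + η) * x) *
      (Real.exp (-((2 * K + η) * x)) * (x ^ (n + 1) * ‖J x‖ ^ 2)) := by
    rw [← mul_assoc (Real.exp _), ← Real.exp_add]; simp
  rw [h2, mul_comm D]
  gcongr

/-- Integrals of bounded exponentials are entire. -/
theorem entire_integral {Ω : Type*} [MeasurableSpace Ω] (μ : Measure Ω) [IsFiniteMeasure μ]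
    (W X : Ω → ℝ) (hW : Measurable W) (hX : Measurable X) (CW CX : ℝ)
    (hWb : ∀ᵐ ω ∂μ, |W ω| ≤ CW) (hXb : ∀ᵐ ω ∂μ, |X ω| ≤ CX) :
    Differentiable ℂ (fun z : ℂ => ∫ ω, (W ω : ℂ) * Complex.exp (-(z * X ω)) ∂μ) := by
  intro z₀
  have hmeas : ∀ z : ℂ, AEStronglyMeasurable (fun ω => (W ω : ℂ) * Complex.exp (-(z * X ω))) μ := by
    intro z
    apply Measurable.aestronglyMeasurable
    fun_prop
  have hnorm : ∀ (z : ℂ) (ω : Ω), ‖Complex.exp (-(z * X ω))‖ ≤ Real.exp (‖z‖ * |X ω|) := by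
    intro z ω
    rw [Complex.norm_exp]
    apply Real.exp_le_exp.mpr
    calc (-(z * (X ω : ℂ))).re ≤ ‖-(z * (X ω : ℂ))‖ := Complex.re_le_norm _
      _ = ‖z‖ * |X ω| := by rw [norm_neg, norm_mul, Complex.norm_real, Real.norm_eq_abs]
  have hbd : ∀ᵐ ω ∂μ, ∀ z ∈ Metric.ball z₀ 1,
      ‖(W ω : ℂ) * (Complex.exp (-(z * X ω)) * (-(X ω : ℂ)))‖ ≤ |CW| * (Real.exp ((‖z₀‖ + 1) * |CX|) * |CX|) := by
    filter_upwards [hWb, hXb] with ω h1 h2 z hz
    have h3 : |X ω| ≤ |CX| := h2.trans (le_abs_self _)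
    have h4 : |W ω| ≤ |CW| := h1.trans (le_abs_self _)
    have h5 : ‖z‖ ≤ ‖z₀‖ + 1 := by
      have : ‖z - z₀‖ < 1 := by simpa [dist_eq_norm] using hz
      have h6 := norm_le_norm_add_norm_sub' z z₀
      linarith
    rw [norm_mul, norm_mul, norm_neg, Complex.norm_real, Complex.norm_real, Real.norm_eq_abs, Real.norm_eq_abs]
    refine mul_le_mul h4 (mul_le_mul ((hnorm z ω).trans (Real.exp_le_exp.mpr ?_)) h3 (abs_nonneg _) (Real.exp_pos _).le)
      (by positivity) (by positivity)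
    exact mul_le_mul h5 h3 (abs_nonneg _) (by positivity)
  have hint0 : Integrable (fun ω => (W ω : ℂ) * Complex.exp (-(z₀ * X ω))) μ := by
    apply Integrable.mono' (g := fun _ => |CW| * Real.exp (‖z₀‖ * |CX|)) (integrable_const _) (hmeas z₀)
    filter_upwards [hWb, hXb] with ω h1 h2
    have h3 : |X ω| ≤ |CX| := h2.trans (le_abs_self _)
    have h4 : |W ω| ≤ |CW| := h1.trans (le_abs_self _)
    rw [norm_mul, Complex.norm_real, Real.norm_eq_abs]
    refine mul_le_mul h4 ((hnorm z₀ ω).trans (Real.exp_le_exp.mpr ?_)) (norm_nonneg _) (abs_nonneg _)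
    exact mul_le_mul_of_nonneg_left h3 (norm_nonneg _)
  have hmeas' : AEStronglyMeasurable (fun ω => (W ω : ℂ) * (Complex.exp (-(z₀ * X ω)) * (-(X ω : ℂ)))) μ := by
    apply Measurable.aestronglyMeasurable
    fun_prop
  have := hasDerivAt_integral_of_dominated_loc_of_deriv_le
    (μ := μ) (𝕜 := ℂ) (F := fun (z : ℂ) ω => (W ω : ℂ) * Complex.exp (-(z * X ω)))
    (F' := fun (z : ℂ) ω => (W ω : ℂ) * (Complex.exp (-(z * X ω)) * (-(X ω : ℂ))))
    (bound := fun _ => |CW| * (Real.exp ((‖z₀‖ + 1) * |CX|) * |CX|))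
    (x₀ := z₀) (s := Metric.ball z₀ 1) (Metric.ball_mem_nhds z₀ one_pos)
    (Filter.Eventually.of_forall hmeas) hint0 hmeas' hbd (integrable_const _)
    (Filter.Eventually.of_forall (fun ω z _ => by
      have h1 : HasDerivAt (fun z : ℂ => -(z * (X ω : ℂ))) (-(X ω : ℂ)) z := by
        simpa using ((hasDerivAt_id z).mul_const (X ω : ℂ)).fun_neg
      exact h1.cexp.const_mul _))
  exact this.2.differentiableAt

end Pool.Agent.Helper78.NA
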