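import Mathlib
import Pool.Agent.Helper78.KL
import Pool.Agent.Helper78.PL

set_option autoImplicit false
set_option linter.unusedSectionVars false
open MeasureTheory Set

namespace Pool.Agent.Helper78.NA

variable {V : Type*} [NormedAddCommGroup V] [InnerProductSpace ℝ V] [FiniteDimensional ℝ V]
  [MeasurableSpace V] [BorelSpace V]

/-- weight -/
noncomputable def wt (ω : ℝ × V × V) : ℝ :=
  ω.1 ^ (-((Module.finrank ℝ V : ℝ) / 2)) * Real.exp (-(‖ω.2.1 - ω.2.2‖ ^ 2 / (2 * ω.1)))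

/-- the nonnegative phase -/
noncomputable def Th (s t : ℝ) (ω : ℝ × V × V) : ℝ :=
  ω.1 / 2 + (1 - ‖ω.2.1 - ω.2.2‖ ^ 2) / (2 * ω.1) - (t - s)

/-- integration region -/
def box (c ε : ℝ) (p q : V) : Set (ℝ × V × V) := Ioc c 2 ×ˢ (Metric.ball p ε ×ˢ Metric.ball q ε)

theorem box_meas (c ε : ℝ) (p q : V) : MeasurableSet (box c ε p q) :=
  measurableSet_Ioc.prod (Metric.isOpen_ball.measurableSet.prod Metric.isOpen_ball.measurableSet)

theorem box_vol (c ε : ℝ) (p q : V) :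
    (volume : Measure (ℝ × V × V)) (box c ε p q) = volume (Ioc c 2) * (volume (Metric.ball p ε) * volume (Metric.ball q ε)) := by
  unfold box
  rw [Measure.volume_eq_prod, Measure.prod_prod, Measure.volume_eq_prod, Measure.prod_prod]

theorem box_fin (c ε : ℝ) (p q : V) : (volume : Measure (ℝ × V × V)) (box c ε p q) < ⊤ := by
  rw [box_vol]
  apply ENNReal.mul_lt_top (by simp)
  exact ENNReal.mul_lt_top measure_ball_lt_top measure_ball_lt_top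

theorem wt_meas : Measurable (wt (V := V)) := by
  unfold wt
  fun_prop

theorem Th_meas (s t : ℝ) : Measurable (Th (V := V) s t) := by
  unfold Th
  fun_prop

theorem Th_eq (s t : ℝ) {ω : ℝ × V × V} (h : 0 < ω.1) :
    Th s t ω = (1 - ‖ω.2.1 - ω.2.2‖ ^ 2 - (t - s) ^ 2) / (2 * ω.1) + (ω.1 - (t - s)) ^ 2 / (2 * ω.1) := by
  unfold Th
  field_simp
  ring

section bounds
variable {c ε : ℝ} (hc : 0 < c) {p q : V} {ω : ℝ × V × V}

include hc in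
theorem wt_pos (hω : ω ∈ box c ε p q) : 0 < wt ω := by
  have : 0 < ω.1 := hc.trans hω.1.1
  unfold wt
  positivity

include hc in
theorem wt_le (hω : ω ∈ box c ε p q) : wt ω ≤ c ^ (-((Module.finrank ℝ V : ℝ) / 2)) := by
  have h1 : 0 < ω.1 := hc.trans hω.1.1
  unfold wt
  calc _ ≤ c ^ (-((Module.finrank ℝ V : ℝ) / 2)) * 1 := by
        apply mul_le_mul
        · apply Real.rpow_le_rpow_of_nonpos hc hω.1.1.le
          have : (0 : ℝ) ≤ (Module.finrank ℝ V : ℝ) / 2 := by positivity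
          linarith
        · rw [Real.exp_le_one_iff]
          have : 0 ≤ ‖ω.2.1 - ω.2.2‖ ^ 2 / (2 * ω.1) := by positivity
          linarith
        · positivity
        · positivity
    _ = _ := mul_one _

theorem norm_sub_bounds (hω : ω ∈ box c ε p q) :
    ‖ω.2.1 - ω.2.2‖ ≤ ‖p - q‖ + 2 * ε ∧ ‖p - q‖ ≤ ‖ω.2.1 - ω.2.2‖ + 2 * ε := by
  have h1 : ‖ω.2.1 - p‖ < ε := by have := hω.2.1; rwa [Metric.mem_ball, dist_eq_norm] at this
  have h2 : ‖ω.2.2 - q‖ < ε := by have := hω.2.2; rwa [Metric.mem_ball, dist_eq_norm] at this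
  constructor
  · have : ω.2.1 - ω.2.2 = (p - q) + ((ω.2.1 - p) - (ω.2.2 - q)) := by abel
    rw [this]
    have h3 := norm_add_le (p - q) ((ω.2.1 - p) - (ω.2.2 - q))
    have h4 := norm_sub_le (ω.2.1 - p) (ω.2.2 - q)
    linarith
  · have : p - q = (ω.2.1 - ω.2.2) + (-((ω.2.1 - p) - (ω.2.2 - q))) := by abel
    rw [this]
    have h3 := norm_add_le (ω.2.1 - ω.2.2) (-((ω.2.1 - p) - (ω.2.2 - q)))
    rw [norm_neg] at h3
    have h4 := norm_sub_le (ω.2.1 - p) (ω.2.2 - q)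
    linarith

include hc in
theorem Th_lower (hε : 0 < ε) (hε2 : ε ≤ 1 / 2) {s t : ℝ} (h : ‖p - q‖ ^ 2 + (t - s) ^ 2 ≤ 1)
    (hω : ω ∈ box c ε p q) : -(3 * ε / c) ≤ Th s t ω := by
  have h1 : 0 < ω.1 := hc.trans hω.1.1
  rw [Th_eq s t h1]
  have h2 := (norm_sub_bounds hω).1
  have h3 : 0 ≤ ‖p - q‖ := norm_nonneg _
  have h4 : ‖p - q‖ ≤ 1 := by nlinarith [sq_nonneg (t - s)]
  have h5 : ‖ω.2.1 - ω.2.2‖ ^ 2 ≤ (‖p - q‖ + 2 * ε) ^ 2 := pow_le_pow_left₀ (norm_nonneg _) h2 2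
  have h6 : 1 - ‖ω.2.1 - ω.2.2‖ ^ 2 - (t - s) ^ 2 ≥ -(6 * ε) := by nlinarith
  have h7 : 0 ≤ (ω.1 - (t - s)) ^ 2 / (2 * ω.1) := by positivity
  have h8 : -(3 * ε / c) ≤ (1 - ‖ω.2.1 - ω.2.2‖ ^ 2 - (t - s) ^ 2) / (2 * ω.1) := by
    have h9 : -(3 * ε / c) = -(6 * ε) / (2 * c) := by field_simp; ring
    rw [h9]
    have h10 : -(6 * ε) / (2 * c) ≤ -(6 * ε) / (2 * ω.1) := by
      rw [neg_div, neg_div, neg_le_neg_iff]
      apply div_le_div_of_nonneg_left (by positivity) (by positivity)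
      have := hω.1.1
      linarith
    exact h10.trans (div_le_div_of_nonneg_right h6 (by positivity))
  linarith

include hc in
theorem Th_upper (hε : 0 < ε) {s t : ℝ} (h1' : ‖p - q‖ ^ 2 + (t - s) ^ 2 ≤ 1)
    (h : 1 - 2 * ε ≤ ‖p - q‖ ^ 2 + (t - s) ^ 2)
    (hω : ω ∈ box c ε p q) (ha : (ω.1 - (t - s)) ^ 2 ≤ ε) : Th s t ω ≤ 7 * ε / (2 * c) := by
  have h1 : 0 < ω.1 := hc.trans hω.1.1
  rw [Th_eq s t h1, ← add_div]
  have h2 := (norm_sub_bounds hω).2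
  have h3 : 0 ≤ ‖p - q‖ := norm_nonneg _
  have h3' : 0 ≤ ‖ω.2.1 - ω.2.2‖ := norm_nonneg _
  have h4 : ‖p - q‖ ≤ 1 := by nlinarith [sq_nonneg (t - s)]
  have h5 : ‖p - q‖ ^ 2 - 4 * ε ≤ ‖ω.2.1 - ω.2.2‖ ^ 2 := by
    by_cases h6 : 2 * ε ≤ ‖p - q‖
    · have : (‖p - q‖ - 2 * ε) ^ 2 ≤ ‖ω.2.1 - ω.2.2‖ ^ 2 := pow_le_pow_left₀ (by linarith) (by linarith) 2
      nlinarith
    · push Not at h6
      nlinarith [sq_nonneg ‖ω.2.1 - ω.2.2‖]
  have h6 : 1 - ‖ω.2.1 - ω.2.2‖ ^ 2 - (t - s) ^ 2 + (ω.1 - (t - s)) ^ 2 ≤ 7 * ε := by linarith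
  calc _ ≤ 7 * ε / (2 * ω.1) := div_le_div_of_nonneg_right h6 (by positivity)
    _ ≤ _ := by
      apply div_le_div_of_nonneg_left (by positivity) (by positivity)
      have := hω.1.1
      linarith

include hc in
theorem Th_abs (hε : 0 < ε) (s t : ℝ)
    (hω : ω ∈ box c ε p q) : |Th s t ω| ≤ 1 + (1 + (‖p - q‖ + 2 * ε) ^ 2) / (2 * c) + |t - s| := by
  have h1 : 0 < ω.1 := hc.trans hω.1.1
  unfold Th
  have h2 := (norm_sub_bounds hω).1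
  have h5 : ‖ω.2.1 - ω.2.2‖ ^ 2 ≤ (‖p - q‖ + 2 * ε) ^ 2 := pow_le_pow_left₀ (norm_nonneg _) h2 2
  have h6 : |(1 - ‖ω.2.1 - ω.2.2‖ ^ 2) / (2 * ω.1)| ≤ (1 + (‖p - q‖ + 2 * ε) ^ 2) / (2 * c) := by
    rw [abs_div, abs_of_pos (show 0 < 2 * ω.1 by positivity)]
    apply div_le_div₀ (by positivity) _ (by positivity)
    · have := hω.1.1; linarith
    · rw [abs_le]; constructor <;> nlinarith [sq_nonneg ‖ω.2.1 - ω.2.2‖]
  have h7 : |ω.1 / 2| ≤ 1 := by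
    rw [abs_of_pos (by positivity)]
    have := hω.1.2; linarith
  calc _ ≤ |ω.1 / 2 + (1 - ‖ω.2.1 - ω.2.2‖ ^ 2) / (2 * ω.1)| + |t - s| := abs_sub _ _
    _ ≤ |ω.1 / 2| + |(1 - ‖ω.2.1 - ω.2.2‖ ^ 2) / (2 * ω.1)| + |t - s| := by gcongr; exact abs_add_le _ _
    _ ≤ _ := by gcongr

end bounds

end Pool.Agent.Helper78.NA
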