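import Mathlib
import Pool.Agent.Helper78.Core

set_option autoImplicit false
set_option linter.unusedSectionVars false
open MeasureTheory Set

namespace Pool.Agent.Helper78.NA

variable {V : Type*} [NormedAddCommGroup V] [InnerProductSpace ℝ V] [FiniteDimensional ℝ V]
  [MeasurableSpace V] [BorelSpace V] {ι κ : Type*}

/-- the one-pair integral -/
noncomputable def Jij (c ε : ℝ) (p q : V) (s t : ℝ) (z : ℂ) : ℂ :=
  ∫ ω in box c ε p q, (wt ω : ℂ) * Complex.exp (-(z * Th s t ω))

theorem Jij_entire {c ε : ℝ} (hc : 0 < c) (hε : 0 < ε) (p q : V) (s t : ℝ) :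
    Differentiable ℂ (Jij c ε p q s t) := by
  unfold Jij
  have : IsFiniteMeasure ((volume : Measure (ℝ × V × V)).restrict (box c ε p q)) :=
    ⟨by rw [Measure.restrict_apply_univ]; exact box_fin c ε p q⟩
  apply entire_integral _ wt (Th s t) wt_meas (Th_meas s t) (c ^ (-((Module.finrank ℝ V : ℝ) / 2)))
    (1 + (1 + (‖p - q‖ + 2 * ε) ^ 2) / (2 * c) + |t - s|)
  · filter_upwards [ae_restrict_mem (box_meas c ε p q)] with ω hω
    rw [abs_of_pos (wt_pos hc hω)]
    exact wt_le hc hω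
  · filter_upwards [ae_restrict_mem (box_meas c ε p q)] with ω hω
    exact Th_abs hc hε s t hω

theorem J_integrable {c ε : ℝ} (hc : 0 < c) (hε : 0 < ε) (p q : V) (s t : ℝ) (z : ℂ) :
    IntegrableOn (fun ω => (wt ω : ℂ) * Complex.exp (-(z * Th s t ω))) (box c ε p q) := by
  have : IsFiniteMeasure ((volume : Measure (ℝ × V × V)).restrict (box c ε p q)) :=
    ⟨by rw [Measure.restrict_apply_univ]; exact box_fin c ε p q⟩
  apply Integrable.mono' (g := fun _ => c ^ (-((Module.finrank ℝ V : ℝ) / 2)) *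
    Real.exp (‖z‖ * (1 + (1 + (‖p - q‖ + 2 * ε) ^ 2) / (2 * c) + |t - s|))) (integrable_const _)
  · apply Measurable.aestronglyMeasurable
    have h1 := wt_meas (V := V)
    have h2 := Th_meas (V := V) s t
    fun_prop
  · filter_upwards [ae_restrict_mem (box_meas c ε p q)] with ω hω
    rw [norm_mul, Complex.norm_real, Real.norm_eq_abs, abs_of_pos (wt_pos hc hω), Complex.norm_exp]
    refine mul_le_mul (wt_le hc hω) (Real.exp_le_exp.mpr ?_) (Real.exp_pos _).le (by positivity)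
    calc (-(z * (Th s t ω : ℂ))).re ≤ ‖-(z * (Th s t ω : ℂ))‖ := Complex.re_le_norm _
      _ = ‖z‖ * |Th s t ω| := by rw [norm_neg, norm_mul, Complex.norm_real, Real.norm_eq_abs]
      _ ≤ _ := mul_le_mul_of_nonneg_left (Th_abs hc hε s t hω) (norm_nonneg _)

theorem J_integrable_real {c ε : ℝ} (hc : 0 < c) (hε : 0 < ε) (p q : V) (s t : ℝ) (x : ℝ) :
    IntegrableOn (fun ω => wt ω * Real.exp (-(x * Th s t ω))) (box c ε p q) := by
  have h := (J_integrable hc hε p q s t (x : ℂ)).re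
  refine h.congr (Filter.Eventually.of_forall (fun ω => ?_))
  simp only [RCLike.re_to_complex]
  rw [Complex.re_ofReal_mul]
  congr 1
  have : -((x : ℂ) * (Th s t ω : ℂ)) = ((-(x * Th s t ω) : ℝ) : ℂ) := by push_cast; rfl
  rw [this, ← Complex.ofReal_exp, Complex.ofReal_re]

theorem Jij_real (c ε : ℝ) (p q : V) (s t x : ℝ) :
    Jij c ε p q s t (x : ℂ) = ((∫ ω in box c ε p q, wt ω * Real.exp (-(x * Th s t ω)) : ℝ) : ℂ) := by
  unfold Jij
  rw [← integral_complex_ofReal]
  refine integral_congr_ae (Filter.Eventually.of_forall (fun ω => ?_))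
  simp only
  push_cast
  rfl

theorem Jij_conj (c ε : ℝ) (p q : V) (s t : ℝ) (z : ℂ) :
    Jij c ε p q s t ((starRingEnd ℂ) z) = (starRingEnd ℂ) (Jij c ε p q s t z) := by
  unfold Jij
  rw [← integral_conj]
  refine integral_congr_ae (Filter.Eventually.of_forall (fun ω => ?_))
  simp only [map_mul, Complex.conj_ofReal]
  congr 1
  rw [← Complex.exp_conj]
  simp

theorem Jij_growth {c ε : ℝ} (hc : 0 < c) (hε : 0 < ε) (hε2 : ε ≤ 1 / 2) {p q : V} {s t : ℝ}
    (h : ‖p - q‖ ^ 2 + (t - s) ^ 2 ≤ 1) {z : ℂ} (hz : 0 ≤ z.re) :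
    ‖Jij c ε p q s t z‖ ≤ (∫ ω in box c ε p q, wt ω * Real.exp (-(0 * Th s t ω))) * Real.exp (3 * ε / c * z.re) := by
  unfold Jij
  rw [← integral_mul_const]
  apply norm_integral_le_of_norm_le ((J_integrable_real hc hε p q s t 0).mul_const _)
  filter_upwards [ae_restrict_mem (box_meas c ε p q)] with ω hω
  rw [norm_mul, Complex.norm_real, Real.norm_eq_abs, abs_of_pos (wt_pos hc hω), Complex.norm_exp]
  have h1 := Th_lower hc hε hε2 h hω
  have h2 : (-(z * (Th s t ω : ℂ))).re = -(z.re * Th s t ω) := by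
    rw [Complex.neg_re, Complex.re_mul_ofReal]
  rw [h2, zero_mul, neg_zero, Real.exp_zero, mul_one]
  refine mul_le_mul_of_nonneg_left (Real.exp_le_exp.mpr ?_) (wt_pos hc hω).le
  nlinarith

/-- lower bound at `1/ε` for an adjacent pair -/
theorem Jij_lower {c ε : ℝ} (hc : 0 < c) (hε : 0 < ε) (hε2 : ε ≤ 1 / 2) {p q : V} {s t : ℝ}
    (h : ‖p - q‖ ^ 2 + (t - s) ^ 2 ≤ 1) (h' : 1 - 2 * ε ≤ ‖p - q‖ ^ 2 + (t - s) ^ 2) (hts : c ≤ t - s) :
    (2 : ℝ) ^ (-((Module.finrank ℝ V : ℝ) / 2)) * Real.exp (-(2 / c)) * Real.exp (-(7 / (2 * c))) *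
      (Real.sqrt ε * ((volume (Metric.ball (0 : V) ε)).toReal) ^ 2) ≤
    ∫ ω in box c ε p q, wt ω * Real.exp (-(1 / ε * Th s t ω)) := by
  set S' : Set (ℝ × V × V) := Ioc (t - s) (t - s + Real.sqrt ε) ×ˢ (Metric.ball p ε ×ˢ Metric.ball q ε) with hS'
  have hts1 : t - s ≤ 1 := by nlinarith [sq_nonneg ‖p - q‖]
  have hsq : Real.sqrt ε ≤ 1 := by
    rw [Real.sqrt_le_left (by norm_num)]; linarith
  have hsq0 : 0 < Real.sqrt ε := Real.sqrt_pos.mpr hε
  have hsub : S' ⊆ box c ε p q := by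
    intro ω hω
    refine ⟨⟨lt_of_le_of_lt hts hω.1.1, ?_⟩, hω.2⟩
    have := hω.1.2
    linarith
  have hS'm : MeasurableSet S' :=
    measurableSet_Ioc.prod (Metric.isOpen_ball.measurableSet.prod Metric.isOpen_ball.measurableSet)
  have hvol : (volume : Measure (ℝ × V × V)).real S' = Real.sqrt ε * ((volume (Metric.ball (0 : V) ε)).toReal) ^ 2 := by
    rw [Measure.real, hS', Measure.volume_eq_prod, Measure.prod_prod, Measure.volume_eq_prod, Measure.prod_prod,
      Real.volume_Ioc, ENNReal.toReal_mul, ENNReal.toReal_mul]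
    rw [Measure.addHaar_ball_center volume p, Measure.addHaar_ball_center volume q]
    rw [ENNReal.toReal_ofReal (by linarith)]
    ring
  have h1 : ∫ ω in S', wt ω * Real.exp (-(1 / ε * Th s t ω)) ≤ ∫ ω in box c ε p q, wt ω * Real.exp (-(1 / ε * Th s t ω)) := by
    apply setIntegral_mono_set (J_integrable_real hc hε p q s t (1 / ε))
    · filter_upwards [ae_restrict_mem (box_meas c ε p q)] with ω hω
      have := wt_pos hc hω
      simp only [Pi.zero_apply]
      positivity
    · exact Filter.Eventually.of_forall hsub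
  refine le_trans ?_ h1
  rw [← hvol]
  have h2 : (2 : ℝ) ^ (-((Module.finrank ℝ V : ℝ) / 2)) * Real.exp (-(2 / c)) * Real.exp (-(7 / (2 * c))) *
      (volume : Measure (ℝ × V × V)).real S' = ∫ ω in S', (2 : ℝ) ^ (-((Module.finrank ℝ V : ℝ) / 2)) * Real.exp (-(2 / c)) * Real.exp (-(7 / (2 * c))) := by
    rw [setIntegral_const, smul_eq_mul]; ring
  rw [h2]
  apply setIntegral_mono_on
  · apply integrableOn_const
    · exact ((measure_mono hsub).trans_lt (box_fin c ε p q)).ne
    · exact enorm_ne_top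
  · exact (J_integrable_real hc hε p q s t (1 / ε)).mono_set hsub
  · exact hS'm
  · intro ω hω
    have hωb := hsub hω
    have hω1 : 0 < ω.1 := hc.trans hωb.1.1
    apply mul_le_mul _ _ (Real.exp_pos _).le (wt_pos hc hωb).le
    · unfold wt
      apply mul_le_mul
      · apply Real.rpow_le_rpow_of_nonpos hω1 hωb.1.2
        have : (0 : ℝ) ≤ (Module.finrank ℝ V : ℝ) / 2 := by positivity
        linarith
      · apply Real.exp_le_exp.mpr
        rw [neg_le_neg_iff]
        have h3 := (norm_sub_bounds hωb).1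
        have h4 : ‖p - q‖ ≤ 1 := by nlinarith [sq_nonneg (t - s), norm_nonneg (p - q)]
        have h5 : ‖ω.2.1 - ω.2.2‖ ^ 2 ≤ 4 := by
          have h6 : ‖ω.2.1 - ω.2.2‖ ≤ 2 := by linarith
          nlinarith [norm_nonneg (ω.2.1 - ω.2.2)]
        calc ‖ω.2.1 - ω.2.2‖ ^ 2 / (2 * ω.1) ≤ 4 / (2 * c) := by
              apply div_le_div₀ (by norm_num) h5 (by positivity)
              have := hωb.1.1
              linarith
          _ = 2 / c := by field_simp; norm_num
      · positivity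
      · positivity
    · apply Real.exp_le_exp.mpr
      rw [neg_le_neg_iff]
      have h3 : (ω.1 - (t - s)) ^ 2 ≤ ε := by
        have h4 : 0 ≤ ω.1 - (t - s) := by have := hω.1.1; linarith
        have h5 : ω.1 - (t - s) ≤ Real.sqrt ε := by have := hω.1.2; linarith
        calc (ω.1 - (t - s)) ^ 2 ≤ Real.sqrt ε ^ 2 := pow_le_pow_left₀ h4 h5 2
          _ = ε := Real.sq_sqrt hε.le
      have h4 := Th_upper hc hε h h' hωb h3
      calc 1 / ε * Th s t ω ≤ 1 / ε * (7 * ε / (2 * c)) := by gcongr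
        _ = 7 / (2 * c) := by field_simp

end Pool.Agent.Helper78.NA
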