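import Mathlib
import Pool.Agent.Helper78.Core2

set_option autoImplicit false
set_option linter.unusedSectionVars false
open MeasureTheory Set

namespace Pool.Agent.Helper78.NA

variable {V : Type*} [NormedAddCommGroup V] [InnerProductSpace ℝ V] [FiniteDimensional ℝ V]
  [MeasurableSpace V] [BorelSpace V] {ι κ : Type*}

/-- the step function attached to a finite family of balls -/
noncomputable def stepf (ε : ℝ) (A : Finset ι) (p : ι → V) (cc : ι → ℂ) (u : V) : ℂ :=
  ∑ i ∈ A, (Metric.ball (p i) ε).indicator (fun _ => cc i) u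

theorem double_sum (ε : ℝ) (A : Finset ι) (B : Finset κ) (p : ι → V) (q : κ → V)
    (cc : ι → ℂ) (dd : κ → ℂ) (K : V → V → ℂ) (hK : Continuous (fun x : V × V => K x.1 x.2))
    (hK1 : ∀ u v, ‖K u v‖ ≤ 1) :
    ∫ u, stepf ε A p cc u * ∫ v, stepf ε B q dd v * K u v =
      ∑ i ∈ A, ∑ j ∈ B, cc i * dd j * ∫ u in Metric.ball (p i) ε, ∫ v in Metric.ball (q j) ε, K u v := by
  have hball : ∀ x : V, MeasurableSet (Metric.ball x ε) := fun x => Metric.isOpen_ball.measurableSet
  have hfin : ∀ x : V, volume (Metric.ball x ε) < ⊤ := fun x => measure_ball_lt_top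
  have hK2 : ∀ u, Continuous (K u) := fun u => hK.comp (Continuous.prodMk continuous_const continuous_id)
  have hKint : ∀ u j, IntegrableOn (K u) (Metric.ball (q j) ε) := by
    intro u j
    apply IntegrableOn.of_bound (hfin _) (hK2 u).aestronglyMeasurable 1
    exact Filter.Eventually.of_forall (hK1 u)
  have hinner : ∀ u, ∫ v, stepf ε B q dd v * K u v = ∑ j ∈ B, dd j * ∫ v in Metric.ball (q j) ε, K u v := by
    intro u
    unfold stepf
    simp_rw [Finset.sum_mul]
    rw [integral_finsetSum]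
    · refine Finset.sum_congr rfl (fun j _ => ?_)
      rw [← integral_const_mul, ← integral_indicator (hball _)]
      refine integral_congr_ae (Filter.Eventually.of_forall (fun v => ?_))
      simp only [indicator]
      split_ifs <;> simp
    · intro j _
      have h1 : (fun v => (Metric.ball (q j) ε).indicator (fun _ => dd j) v * K u v)
          = (Metric.ball (q j) ε).indicator (fun v => dd j * K u v) := by
        ext v
        simp only [indicator]
        split_ifs <;> simp
      rw [h1, integrable_indicator_iff (hball _)]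
      exact (hKint u j).const_mul _
  simp_rw [hinner]
  have hGm : ∀ j, StronglyMeasurable (fun u => ∫ v in Metric.ball (q j) ε, K u v) := by
    intro j
    have := hK.stronglyMeasurable.integral_prod_right' (ν := volume.restrict (Metric.ball (q j) ε))
    exact this
  have hGb : ∀ j u, ‖∫ v in Metric.ball (q j) ε, K u v‖ ≤ (volume (Metric.ball (q j) ε)).toReal := by
    intro j u
    have := norm_setIntegral_le_of_norm_le_const (C := 1) (hfin (q j)) (f := K u) (fun v _ => hK1 u v)
    rwa [one_mul] at this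
  have hGi : ∀ i j, IntegrableOn (fun u => ∫ v in Metric.ball (q j) ε, K u v) (Metric.ball (p i) ε) := by
    intro i j
    apply IntegrableOn.of_bound (hfin _) (hGm j).aestronglyMeasurable ((volume (Metric.ball (q j) ε)).toReal)
    exact Filter.Eventually.of_forall (hGb j)
  have hGi2 : ∀ i, IntegrableOn (fun u => ∑ j ∈ B, dd j * ∫ v in Metric.ball (q j) ε, K u v) (Metric.ball (p i) ε) := by
    intro i
    exact integrable_finsetSum _ (fun j _ => (hGi i j).const_mul _)
  unfold stepf
  simp_rw [Finset.sum_mul]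
  rw [integral_finsetSum]
  · refine Finset.sum_congr rfl (fun i _ => ?_)
    have h1 : ∫ u, (Metric.ball (p i) ε).indicator (fun _ => cc i) u * ∑ j ∈ B, dd j * ∫ v in Metric.ball (q j) ε, K u v
        = ∫ u in Metric.ball (p i) ε, cc i * ∑ j ∈ B, dd j * ∫ v in Metric.ball (q j) ε, K u v := by
      rw [← integral_indicator (hball _)]
      refine integral_congr_ae (Filter.Eventually.of_forall (fun v => ?_))
      simp only [indicator]
      split_ifs <;> simp
    rw [h1, integral_const_mul, integral_finsetSum _ (fun j _ => (hGi i j).const_mul _), Finset.mul_sum]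
    refine Finset.sum_congr rfl (fun j _ => ?_)
    rw [integral_const_mul, mul_assoc]
  · intro i _
    have h1 : (fun u => (Metric.ball (p i) ε).indicator (fun _ => cc i) u * ∑ j ∈ B, dd j * ∫ v in Metric.ball (q j) ε, K u v)
        = (Metric.ball (p i) ε).indicator (fun u => cc i * ∑ j ∈ B, dd j * ∫ v in Metric.ball (q j) ε, K u v) := by
      ext v
      simp only [indicator]
      split_ifs <;> simp
    rw [h1, integrable_indicator_iff (hball _)]
    exact (hGi2 i).const_mul _

/-- pointwise factorisation of the integrand on the imaginary axis -/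
theorem wt_exp_imag (τ s t : ℝ) {ω : ℝ × V × V} (h : 0 < ω.1) :
    (wt ω : ℂ) * Complex.exp (-((τ * Complex.I) * Th s t ω)) =
      Complex.exp (-(Complex.I * τ * (ω.1 + 1 / ω.1) / 2)) *
      (((ω.1 ^ (-((Module.finrank ℝ V : ℝ) / 2)) : ℝ) : ℂ) *
      ((Complex.exp (-(Complex.I * τ * s)) * Complex.exp (Complex.I * τ * t)) *
        Complex.exp (-((1 - Complex.I * τ) * ‖ω.2.1 - ω.2.2‖ ^ 2 / (2 * ω.1))))) := by
  have ha : (ω.1 : ℂ) ≠ 0 := by exact_mod_cast h.ne'
  unfold wt Th
  rw [Complex.ofReal_mul, Complex.ofReal_exp, mul_assoc, mul_left_comm (Complex.exp (-(Complex.I * τ * (ω.1 + 1 / ω.1) / 2)))]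
  congr 1
  rw [← Complex.exp_add, ← Complex.exp_add, ← Complex.exp_add, ← Complex.exp_add]
  congr 1
  push_cast
  field_simp
  ring

theorem Jij_imag {c ε : ℝ} (hc : 0 < c) (hc2 : c ≤ 2) (hε : 0 < ε) (p q : V) (s t τ : ℝ) :
    IntervalIntegrable (fun a : ℝ => Complex.exp (-(Complex.I * τ * (a + 1 / a) / 2)) *
      (((a ^ (-((Module.finrank ℝ V : ℝ) / 2)) : ℝ) : ℂ) *
      ((Complex.exp (-(Complex.I * τ * s)) * Complex.exp (Complex.I * τ * t)) *
        ∫ u in Metric.ball p ε, ∫ v in Metric.ball q ε, Complex.exp (-((1 - Complex.I * τ) * ‖u - v‖ ^ 2 / (2 * a)))))) volume c 2 ∧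
    Jij c ε p q s t (τ * Complex.I) =
    ∫ a in c..2, Complex.exp (-(Complex.I * τ * (a + 1 / a) / 2)) *
      (((a ^ (-((Module.finrank ℝ V : ℝ) / 2)) : ℝ) : ℂ) *
      ((Complex.exp (-(Complex.I * τ * s)) * Complex.exp (Complex.I * τ * t)) *
        ∫ u in Metric.ball p ε, ∫ v in Metric.ball q ε, Complex.exp (-((1 - Complex.I * τ) * ‖u - v‖ ^ 2 / (2 * a))))) := by
  set F : ℝ × V × V → ℂ := fun ω => (wt ω : ℂ) * Complex.exp (-((τ * Complex.I) * Th s t ω)) with hF
  have hint : IntegrableOn F (box c ε p q) := J_integrable hc hε p q s t (τ * Complex.I)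
  have hfin : ∀ x : V, volume (Metric.ball x ε) < ⊤ := fun x => measure_ball_lt_top
  have hfinprod : (volume : Measure (V × V)) (Metric.ball p ε ×ˢ Metric.ball q ε) < ⊤ := by
    rw [Measure.volume_eq_prod, Measure.prod_prod]
    exact ENNReal.mul_lt_top (hfin p) (hfin q)
  have hEc : ∀ a : ℝ, Continuous (fun x : V × V => Complex.exp (-((1 - Complex.I * τ) * ‖x.1 - x.2‖ ^ 2 / (2 * a)))) := by
    intro a; fun_prop
  have hEn : ∀ a : ℝ, 0 < a → ∀ x : V × V, ‖Complex.exp (-((1 - Complex.I * τ) * ‖x.1 - x.2‖ ^ 2 / (2 * a)))‖ ≤ 1 := by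
    intro a ha x
    rw [Complex.norm_exp, Real.exp_le_one_iff]
    have : -((1 - Complex.I * τ) * ‖x.1 - x.2‖ ^ 2 / (2 * a)) = ((-(‖x.1 - x.2‖ ^ 2 / (2 * a)) : ℝ) : ℂ) + ((τ * ‖x.1 - x.2‖ ^ 2 / (2 * a) : ℝ) : ℂ) * Complex.I := by
      push_cast; ring
    rw [this]
    simp only [Complex.add_re, Complex.ofReal_re, Complex.re_ofReal_mul, Complex.I_re, mul_zero, add_zero]
    have : 0 ≤ ‖x.1 - x.2‖ ^ 2 / (2 * a) := by positivity
    linarith
  -- inner evaluation
  have hval : ∀ a ∈ Ioc c 2, ∫ y in Metric.ball p ε ×ˢ Metric.ball q ε, F (a, y) =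
      Complex.exp (-(Complex.I * τ * (a + 1 / a) / 2)) *
      (((a ^ (-((Module.finrank ℝ V : ℝ) / 2)) : ℝ) : ℂ) *
      ((Complex.exp (-(Complex.I * τ * s)) * Complex.exp (Complex.I * τ * t)) *
        ∫ u in Metric.ball p ε, ∫ v in Metric.ball q ε, Complex.exp (-((1 - Complex.I * τ) * ‖u - v‖ ^ 2 / (2 * a))))) := by
    intro a ha
    have ha0 : 0 < a := hc.trans ha.1
    have h1 : ∀ y : V × V, F (a, y) = Complex.exp (-(Complex.I * τ * (a + 1 / a) / 2)) *
      (((a ^ (-((Module.finrank ℝ V : ℝ) / 2)) : ℝ) : ℂ) *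
      ((Complex.exp (-(Complex.I * τ * s)) * Complex.exp (Complex.I * τ * t)) *
        Complex.exp (-((1 - Complex.I * τ) * ‖y.1 - y.2‖ ^ 2 / (2 * a))))) := by
      intro y
      exact wt_exp_imag τ s t (ω := (a, y)) ha0
    simp_rw [h1]
    rw [integral_const_mul, integral_const_mul, integral_const_mul]
    congr 3
    have h2 : IntegrableOn (fun x : V × V => Complex.exp (-((1 - Complex.I * τ) * ‖x.1 - x.2‖ ^ 2 / (2 * a))))
        (Metric.ball p ε ×ˢ Metric.ball q ε) (volume.prod volume) := by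
      apply IntegrableOn.of_bound hfinprod (hEc a).aestronglyMeasurable 1
      exact Filter.Eventually.of_forall (hEn a ha0)
    exact setIntegral_prod _ h2
  have hint2 : Integrable F ((volume.restrict (Ioc c 2)).prod ((volume : Measure (V × V)).restrict (Metric.ball p ε ×ˢ Metric.ball q ε))) := by
    rw [Measure.prod_restrict]
    exact hint
  have hint3 := hint2.integral_prod_left
  have hae : (fun a => ∫ y in Metric.ball p ε ×ˢ Metric.ball q ε, F (a, y)) =ᵐ[volume.restrict (Ioc c 2)]
      (fun a : ℝ => Complex.exp (-(Complex.I * τ * (a + 1 / a) / 2)) *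
      (((a ^ (-((Module.finrank ℝ V : ℝ) / 2)) : ℝ) : ℂ) *
      ((Complex.exp (-(Complex.I * τ * s)) * Complex.exp (Complex.I * τ * t)) *
        ∫ u in Metric.ball p ε, ∫ v in Metric.ball q ε, Complex.exp (-((1 - Complex.I * τ) * ‖u - v‖ ^ 2 / (2 * a)))))) := by
    filter_upwards [ae_restrict_mem measurableSet_Ioc] with a ha
    exact hval a ha
  constructor
  · rw [intervalIntegrable_iff_integrableOn_Ioc_of_le hc2]
    exact hint3.congr hae
  · rw [intervalIntegral.integral_of_le hc2, ← integral_congr_ae hae]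
    unfold Jij box
    exact setIntegral_prod _ hint

end Pool.Agent.Helper78.NA
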