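import Mathlib
import Pool.Agent.Helper78.Core3

set_option autoImplicit false
set_option linter.unusedSectionVars false
open MeasureTheory Set

namespace Pool.Agent.Helper78.NA

variable {V : Type*} [NormedAddCommGroup V] [InnerProductSpace ℝ V] [FiniteDimensional ℝ V]
  [MeasurableSpace V] [BorelSpace V] {ι κ : Type*}

open scoped Classical in
/-- number of ordered close pairs -/
noncomputable def cp (ε : ℝ) (A : Finset ι) (p : ι → V) : ℝ :=
  (((A ×ˢ A).filter (fun x => dist (p x.1) (p x.2) < 2 * ε)).card : ℝ)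

theorem stepf_integrable (ε : ℝ) (A : Finset ι) (p : ι → V) (cc : ι → ℂ) :
    Integrable (stepf ε A p cc) := by
  unfold stepf
  apply integrable_finsetSum
  intro i _
  rw [integrable_indicator_iff Metric.isOpen_ball.measurableSet]
  exact integrableOn_const measure_ball_lt_top.ne enorm_ne_top

theorem stepf_sq (ε : ℝ) (A : Finset ι) (p : ι → V) (cc : ι → ℂ) (hcc : ∀ i ∈ A, ‖cc i‖ ≤ 1) :
    Integrable (fun x => ‖stepf ε A p cc x‖ ^ 2) ∧
    ∫ x, ‖stepf ε A p cc x‖ ^ 2 ≤ (volume (Metric.ball (0 : V) ε)).toReal * cp ε A p := by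
  classical
  have hball : ∀ x : V, MeasurableSet (Metric.ball x ε) := fun x => Metric.isOpen_ball.measurableSet
  have hfin : ∀ x : V, volume (Metric.ball x ε) < ⊤ := fun x => measure_ball_lt_top
  set H : V → ℝ := fun x => ∑ i ∈ A, ∑ j ∈ A, (Metric.ball (p i) ε ∩ Metric.ball (p j) ε).indicator (fun _ => (1 : ℝ)) x with hH
  have hint : ∀ i j, Integrable ((Metric.ball (p i) ε ∩ Metric.ball (p j) ε).indicator (fun _ => (1 : ℝ))) := by
    intro i j
    rw [integrable_indicator_iff ((hball _).inter (hball _))]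
    refine integrableOn_const ?_ enorm_ne_top
    exact ((measure_mono inter_subset_left).trans_lt (hfin _)).ne
  have hHi : Integrable H :=
    integrable_finsetSum _ (fun i _ => integrable_finsetSum _ (fun j _ => hint i j))
  have hle : ∀ x, ‖stepf ε A p cc x‖ ^ 2 ≤ H x := by
    intro x
    have h1 : ‖stepf ε A p cc x‖ ≤ ∑ i ∈ A, (Metric.ball (p i) ε).indicator (fun _ => (1 : ℝ)) x := by
      unfold stepf
      refine (norm_sum_le _ _).trans (Finset.sum_le_sum (fun i hi => ?_))
      simp only [indicator]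
      split_ifs
      · exact hcc i hi
      · simp
    have h2 : H x = (∑ i ∈ A, (Metric.ball (p i) ε).indicator (fun _ => (1 : ℝ)) x) ^ 2 := by
      rw [pow_two, Finset.sum_mul_sum]
      refine Finset.sum_congr rfl (fun i _ => Finset.sum_congr rfl (fun j _ => ?_))
      simp only [indicator, mem_inter_iff]
      split_ifs <;> simp_all
    rw [h2]
    exact pow_le_pow_left₀ (norm_nonneg _) h1 2
  have hm : AEStronglyMeasurable (fun x => ‖stepf ε A p cc x‖ ^ 2) (volume : Measure V) :=
    (stepf_integrable ε A p cc).aestronglyMeasurable.norm.pow 2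
  have hi : Integrable (fun x => ‖stepf ε A p cc x‖ ^ 2) := by
    apply hHi.mono' hm
    refine Filter.Eventually.of_forall (fun x => ?_)
    rw [Real.norm_of_nonneg (by positivity)]
    exact hle x
  refine ⟨hi, (integral_mono hi hHi hle).trans ?_⟩
  simp only [hH]
  rw [integral_finsetSum _ (fun i _ => integrable_finsetSum _ (fun j _ => hint i j))]
  have h3 : ∀ i ∈ A, ∫ x, ∑ j ∈ A, (Metric.ball (p i) ε ∩ Metric.ball (p j) ε).indicator (fun _ => (1 : ℝ)) x
      ≤ ∑ j ∈ A, (volume (Metric.ball (0 : V) ε)).toReal * (if dist (p i) (p j) < 2 * ε then 1 else 0) := by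
    intro i _
    rw [integral_finsetSum _ (fun j _ => hint i j)]
    refine Finset.sum_le_sum (fun j _ => ?_)
    rw [integral_indicator ((hball _).inter (hball _)), setIntegral_const, smul_eq_mul, mul_one]
    split_ifs with hd
    · rw [mul_one, Measure.real]
      rw [← Measure.addHaar_ball_center volume (p i)]
      exact ENNReal.toReal_mono (hfin _).ne (measure_mono inter_subset_left)
    · have : Metric.ball (p i) ε ∩ Metric.ball (p j) ε = ∅ := by
        ext x
        simp only [mem_inter_iff, Metric.mem_ball, mem_empty_iff_false, iff_false, not_and, not_lt]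
        intro h4
        by_contra h5
        push Not at h5
        apply hd
        have := dist_triangle_left (p i) (p j) x
        linarith
      rw [this]
      simp
  refine (Finset.sum_le_sum h3).trans (le_of_eq ?_)
  unfold cp
  rw [Finset.card_filter, Nat.cast_sum, Finset.sum_product, Finset.mul_sum]
  refine Finset.sum_congr rfl (fun i _ => ?_)
  rw [Finset.mul_sum]
  refine Finset.sum_congr rfl (fun j _ => ?_)
  split_ifs <;> simp

/-- the sum over all pairs -/
noncomputable def Jsum (c ε : ℝ) (A : Finset ι) (B : Finset κ) (p : ι → V) (s : ι → ℝ) (q : κ → V) (t : κ → ℝ)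
    (z : ℂ) : ℂ := ∑ i ∈ A, ∑ j ∈ B, Jij c ε (p i) (q j) (s i) (t j) z

theorem Jsum_imag {c ε : ℝ} (hc : 0 < c) (hc2 : c ≤ 2) (hε : 0 < ε) (A : Finset ι) (B : Finset κ)
    (p : ι → V) (s : ι → ℝ) (q : κ → V) (t : κ → ℝ) (τ : ℝ) :
    Jsum c ε A B p s q t (τ * Complex.I) =
    ∫ a in c..2, Complex.exp (-(Complex.I * τ * (a + 1 / a) / 2)) *
      (((a ^ (-((Module.finrank ℝ V : ℝ) / 2)) : ℝ) : ℂ) *
       ∫ u, stepf ε A p (fun i => Complex.exp (-(Complex.I * τ * s i))) u *
        ∫ v, stepf ε B q (fun j => Complex.exp (Complex.I * τ * t j)) v *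
          Complex.exp (-((1 - Complex.I * τ) * ‖u - v‖ ^ 2 / (2 * a)))) := by
  have hEc : ∀ a : ℝ, Continuous (fun x : V × V => Complex.exp (-((1 - Complex.I * τ) * ‖x.1 - x.2‖ ^ 2 / (2 * a)))) := by
    intro a; fun_prop
  have hEn : ∀ a : ℝ, 0 < a → ∀ u v : V, ‖Complex.exp (-((1 - Complex.I * τ) * ‖u - v‖ ^ 2 / (2 * a)))‖ ≤ 1 := by
    intro a ha u v
    rw [Complex.norm_exp, Real.exp_le_one_iff]
    have : -((1 - Complex.I * τ) * ‖u - v‖ ^ 2 / (2 * a)) = ((-(‖u - v‖ ^ 2 / (2 * a)) : ℝ) : ℂ) + ((τ * ‖u - v‖ ^ 2 / (2 * a) : ℝ) : ℂ) * Complex.I := by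
      push_cast; ring
    rw [this]
    simp only [Complex.add_re, Complex.ofReal_re, Complex.re_ofReal_mul, Complex.I_re, mul_zero, add_zero]
    have : 0 ≤ ‖u - v‖ ^ 2 / (2 * a) := by positivity
    linarith
  unfold Jsum
  have h1 : ∀ i ∈ A, ∀ j ∈ B, Jij c ε (p i) (q j) (s i) (t j) (τ * Complex.I) = _ :=
    fun i _ j _ => (Jij_imag hc hc2 hε (p i) (q j) (s i) (t j) τ).2
  rw [Finset.sum_congr rfl (fun i hi => Finset.sum_congr rfl (h1 i hi))]
  have h2 : ∀ i j, IntervalIntegrable _ volume c 2 :=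
    fun i j => (Jij_imag hc hc2 hε (p i) (q j) (s i) (t j) τ).1
  simp_rw [← intervalIntegral.integral_finsetSum (fun j _ => h2 _ j)]
  rw [← intervalIntegral.integral_finsetSum]
  · apply intervalIntegral.integral_congr
    intro a ha
    rw [uIcc_of_le hc2] at ha
    have ha0 : 0 < a := lt_of_lt_of_le hc ha.1
    simp only
    rw [double_sum ε A B p q _ _ (fun u v => Complex.exp (-((1 - Complex.I * τ) * ‖u - v‖ ^ 2 / (2 * a)))) (hEc a)
      (hEn a ha0), Finset.mul_sum, Finset.mul_sum]
    refine Finset.sum_congr rfl (fun i _ => ?_)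
    rw [Finset.mul_sum, Finset.mul_sum]
  · intro i _
    have := IntervalIntegrable.sum B (fun j _ => h2 i j)
    refine this.congr (fun a _ => ?_)
    simp [Finset.sum_apply]

end Pool.Agent.Helper78.NA
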