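import Mathlib
import Pool.Agent.Helper78.Core4

set_option autoImplicit false
set_option linter.unusedSectionVars false
open MeasureTheory Set

namespace Pool.Agent.Helper78.NA

variable {V : Type*} [NormedAddCommGroup V] [InnerProductSpace ℝ V] [FiniteDimensional ℝ V]
  [MeasurableSpace V] [BorelSpace V] {ι κ : Type*}

theorem Jsum_imag_bound_pos {c ε : ℝ} (hc : 0 < c) (hc2 : c ≤ 2) (hε : 0 < ε) (A : Finset ι) (B : Finset κ)
    (p : ι → V) (s : ι → ℝ) (q : κ → V) (t : κ → ℝ) (τ : ℝ) (hτ : 0 < τ) :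
    τ ^ (Module.finrank ℝ V + 1) * ‖Jsum c ε A B p s q t (τ * Complex.I)‖ ^ 2 ≤
      (2 * Real.pi) ^ (Module.finrank ℝ V) * 512 *
        ((volume (Metric.ball (0 : V) ε)).toReal * (cp ε A p + cp ε B q) / 2) ^ 2 := by
  rw [Jsum_imag hc hc2 hε]
  set n := Module.finrank ℝ V with hn
  set f := stepf ε A p (fun i => Complex.exp (-(Complex.I * τ * s i))) with hf
  set g := stepf ε B q (fun j => Complex.exp (Complex.I * τ * t j)) with hg
  have h1 : ∀ i ∈ A, ‖Complex.exp (-(Complex.I * τ * s i))‖ ≤ 1 := by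
    intro i _
    have : -(Complex.I * τ * s i) = ((-(τ * s i) : ℝ) : ℂ) * Complex.I := by push_cast; ring
    rw [this, Complex.norm_exp_ofReal_mul_I]
  have h2 : ∀ j ∈ B, ‖Complex.exp (Complex.I * τ * t j)‖ ≤ 1 := by
    intro i _
    have : (Complex.I * τ * t i) = ((τ * t i : ℝ) : ℂ) * Complex.I := by push_cast; ring
    rw [this, Complex.norm_exp_ofReal_mul_I]
  obtain ⟨hf2, hfb⟩ := stepf_sq ε A p (fun i => Complex.exp (-(Complex.I * τ * s i))) h1
  obtain ⟨hg2, hgb⟩ := stepf_sq ε B q (fun j => Complex.exp (Complex.I * τ * t j)) h2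
  have h3 := kl τ c 2 hτ hc hc2 (stepf_integrable ε A p _) hf2 (stepf_integrable ε B q _) hg2
  set b := (volume (Metric.ball (0 : V) ε)).toReal with hb
  have h4 : (∫ x, ‖f x‖ ^ 2) / 2 + (∫ x, ‖g x‖ ^ 2) / 2 ≤ b * (cp ε A p + cp ε B q) / 2 := by
    rw [← add_div, mul_add]
    apply div_le_div_of_nonneg_right (add_le_add hfb hgb) (by norm_num)
  have h5 : 0 ≤ (∫ x, ‖f x‖ ^ 2) / 2 + (∫ x, ‖g x‖ ^ 2) / 2 := by
    have h6 : 0 ≤ ∫ x, ‖f x‖ ^ 2 := integral_nonneg (fun _ => by positivity)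
    have h7 : 0 ≤ ∫ x, ‖g x‖ ^ 2 := integral_nonneg (fun _ => by positivity)
    linarith
  have h6 := h3.trans (mul_le_mul_of_nonneg_left h4 (by positivity))
  have h7 := pow_le_pow_left₀ (norm_nonneg _) h6 2
  calc _ ≤ τ ^ (n + 1) * ((2 * Real.pi / τ) ^ ((n : ℝ) / 2) * (8 * Real.sqrt (2 ^ 3 / τ)) *
        (b * (cp ε A p + cp ε B q) / 2)) ^ 2 := by
        exact mul_le_mul_of_nonneg_left h7 (by positivity)
    _ = _ := by
        rw [mul_pow, mul_pow, mul_pow, Real.sq_sqrt (by positivity)]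
        have h8 : ((2 * Real.pi / τ) ^ ((n : ℝ) / 2)) ^ 2 = (2 * Real.pi / τ) ^ n := by
          rw [← Real.rpow_natCast, ← Real.rpow_mul (by positivity)]
          have : (n : ℝ) / 2 * ((2 : ℕ) : ℝ) = (n : ℝ) := by push_cast; ring
          rw [this, Real.rpow_natCast]
        rw [h8, div_pow, pow_succ]
        field_simp
        norm_num
        ring

theorem Jsum_conj (c ε : ℝ) (A : Finset ι) (B : Finset κ) (p : ι → V) (s : ι → ℝ) (q : κ → V) (t : κ → ℝ)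
    (z : ℂ) : Jsum c ε A B p s q t ((starRingEnd ℂ) z) = (starRingEnd ℂ) (Jsum c ε A B p s q t z) := by
  unfold Jsum
  simp_rw [map_sum, Jij_conj]

theorem Jsum_imag_bound {c ε : ℝ} (hc : 0 < c) (hc2 : c ≤ 2) (hε : 0 < ε) (A : Finset ι) (B : Finset κ)
    (p : ι → V) (s : ι → ℝ) (q : κ → V) (t : κ → ℝ) (τ : ℝ) :
    |τ| ^ (Module.finrank ℝ V + 1) * ‖Jsum c ε A B p s q t (τ * Complex.I)‖ ^ 2 ≤
      (2 * Real.pi) ^ (Module.finrank ℝ V) * 512 *
        ((volume (Metric.ball (0 : V) ε)).toReal * (cp ε A p + cp ε B q) / 2) ^ 2 := by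
  rcases lt_trichotomy τ 0 with h | h | h
  · have h1 := Jsum_imag_bound_pos hc hc2 hε A B p s q t (-τ) (by linarith)
    have h2 : ((τ : ℂ) * Complex.I) = (starRingEnd ℂ) (((-τ : ℝ) : ℂ) * Complex.I) := by
      simp
    rw [h2, Jsum_conj, RCLike.norm_conj, abs_of_neg h]
    exact h1
  · subst h
    simp only [abs_zero, Complex.ofReal_zero, zero_mul]
    rw [zero_pow (by omega), zero_mul]
    positivity
  · rw [abs_of_pos h]
    exact Jsum_imag_bound_pos hc hc2 hε A B p s q t τ h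

open scoped Classical in
theorem core (c : ℝ) (hc : 0 < c) (hc1 : c ≤ 1) : ∃ C : ℝ, 0 < C ∧
    ∀ (ε : ℝ), 0 < ε → ε ≤ 1 / 2 → ∀ (A : Finset ι) (B : Finset κ)
    (p : ι → V) (s : ι → ℝ) (q : κ → V) (t : κ → ℝ),
    (∀ i ∈ A, ∀ j ∈ B, ‖p i - q j‖ ^ 2 + (t j - s i) ^ 2 ≤ 1) →
    ε ^ (Module.finrank ℝ V) * (((A ×ˢ B).filter (fun x => 1 - 2 * ε ≤ ‖p x.1 - q x.2‖ ^ 2 + (t x.2 - s x.1) ^ 2 ∧
      c ≤ t x.2 - s x.1)).card : ℝ) ^ 2 ≤ C * (cp ε A p + cp ε B q) ^ 2 := by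
  set n := Module.finrank ℝ V with hn
  set L : ℝ := (2 : ℝ) ^ (-((n : ℝ) / 2)) * Real.exp (-(2 / c)) * Real.exp (-(7 / (2 * c))) with hL
  have hL0 : 0 < L := by positivity
  set b₁ : ℝ := (volume (Metric.ball (0 : V) 1)).toReal with hb₁
  have hb₁0 : 0 < b₁ := ENNReal.toReal_pos (Metric.measure_ball_pos volume 0 one_pos).ne' measure_ball_lt_top.ne
  refine ⟨(2 * Real.pi) ^ n * 128 * Real.exp (6 / c + 1) / (L ^ 2 * b₁ ^ 2), by positivity, ?_⟩
  intro ε hε hε2 A B p s q t hAB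
  set b : ℝ := (volume (Metric.ball (0 : V) ε)).toReal with hb
  have hb1 : b = ε ^ n * b₁ := by
    rw [hb, Measure.addHaar_ball_of_pos volume 0 hε, ENNReal.toReal_mul, ENNReal.toReal_ofReal (by positivity)]
  have hb0 : 0 < b := by rw [hb1]; positivity
  set adj := ((A ×ˢ B).filter (fun x => 1 - 2 * ε ≤ ‖p x.1 - q x.2‖ ^ 2 + (t x.2 - s x.1) ^ 2 ∧
      c ≤ t x.2 - s x.1)) with hadj
  have hent : Differentiable ℂ (Jsum c ε A B p s q t) := by
    unfold Jsum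
    apply Differentiable.fun_sum
    intro i _
    apply Differentiable.fun_sum
    intro j _
    exact Jij_entire hc hε _ _ _ _
  set M : ℝ := ∑ i ∈ A, ∑ j ∈ B, ∫ ω in box c ε (p i) (q j), wt ω * Real.exp (-(0 * Th (s i) (t j) ω)) with hM
  have hgr : ∀ z : ℂ, 0 ≤ z.re → ‖Jsum c ε A B p s q t z‖ ≤ M * Real.exp (3 * ε / c * z.re) := by
    intro z hz
    unfold Jsum
    rw [hM, Finset.sum_mul]
    refine (norm_sum_le _ _).trans (Finset.sum_le_sum (fun i hi => ?_))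
    rw [Finset.sum_mul]
    refine (norm_sum_le _ _).trans (Finset.sum_le_sum (fun j hj => ?_))
    exact Jij_growth hc hε hε2 (hAB i hi j hj) hz
  have hpl := pl_bound (Jsum c ε A B p s q t) hent M (3 * ε / c) _ n hgr
    (Jsum_imag_bound hc (by linarith) hε A B p s q t) ε hε (1 / ε) (by positivity)
  -- lower bound
  have hlow : (adj.card : ℝ) * (L * (Real.sqrt ε * b ^ 2)) ≤ ‖Jsum c ε A B p s q t ((1 / ε : ℝ) : ℂ)‖ := by
    have h1 : Jsum c ε A B p s q t ((1 / ε : ℝ) : ℂ) =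
        ((∑ x ∈ A ×ˢ B, ∫ ω in box c ε (p x.1) (q x.2), wt ω * Real.exp (-(1 / ε * Th (s x.1) (t x.2) ω)) : ℝ) : ℂ) := by
      unfold Jsum
      rw [Finset.sum_product]
      push_cast
      refine Finset.sum_congr rfl (fun i _ => Finset.sum_congr rfl (fun j _ => ?_))
      have := Jij_real c ε (p i) (q j) (s i) (t j) (1 / ε)
      push_cast at this
      rw [this]
    rw [h1, Complex.norm_real]
    refine le_trans ?_ (le_abs_self _)
    have hnn : ∀ x ∈ A ×ˢ B, 0 ≤ ∫ ω in box c ε (p x.1) (q x.2), wt ω * Real.exp (-(1 / ε * Th (s x.1) (t x.2) ω)) := by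
      intro x _
      apply setIntegral_nonneg (box_meas _ _ _ _)
      intro ω hω
      have := wt_pos hc hω
      positivity
    calc (adj.card : ℝ) * (L * (Real.sqrt ε * b ^ 2)) = ∑ x ∈ adj, (L * (Real.sqrt ε * b ^ 2)) := by
          rw [Finset.sum_const, nsmul_eq_mul]
      _ ≤ ∑ x ∈ adj, ∫ ω in box c ε (p x.1) (q x.2), wt ω * Real.exp (-(1 / ε * Th (s x.1) (t x.2) ω)) := by
          refine Finset.sum_le_sum (fun x hx => ?_)
          rw [hadj, Finset.mem_filter, Finset.mem_product] at hx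
          exact Jij_lower hc hε hε2 (hAB x.1 hx.1.1 x.2 hx.1.2) hx.2.1 hx.2.2
      _ ≤ _ := by
          apply Finset.sum_le_sum_of_subset_of_nonneg (Finset.filter_subset _ _)
          intro x hx _
          exact hnn x hx
  have hsq : (1 / ε) ^ (n + 1) * ((adj.card : ℝ) * (L * (Real.sqrt ε * b ^ 2))) ^ 2 ≤
      (2 * Real.pi) ^ n * 512 * (b * (cp ε A p + cp ε B q) / 2) ^ 2 * Real.exp (6 / c + 1) := by
    have h2 : (2 * (3 * ε / c) + ε) * (1 / ε) = 6 / c + 1 := by field_simp; ring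
    rw [h2] at hpl
    refine le_trans ?_ hpl
    gcongr
  -- algebra
  rw [div_mul_eq_mul_div, le_div_iff₀ (by positivity)]
  have h3 : (1 / ε) ^ (n + 1) * ((adj.card : ℝ) * (L * (Real.sqrt ε * b ^ 2))) ^ 2 =
      (ε ^ n * (adj.card : ℝ) ^ 2 * (L ^ 2 * b₁ ^ 2)) * b ^ 2 := by
    have h4 : ((adj.card : ℝ) * (L * (Real.sqrt ε * b ^ 2))) ^ 2 = (adj.card : ℝ) ^ 2 * L ^ 2 * (Real.sqrt ε ^ 2) * b ^ 2 * b ^ 2 := by ring
    rw [h4, Real.sq_sqrt hε.le]
    nth_rewrite 1 [hb1]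
    rw [one_div, inv_pow, pow_succ]
    field_simp
  have h5 : (2 * Real.pi) ^ n * 512 * (b * (cp ε A p + cp ε B q) / 2) ^ 2 * Real.exp (6 / c + 1) =
      ((2 * Real.pi) ^ n * 128 * Real.exp (6 / c + 1) * (cp ε A p + cp ε B q) ^ 2) * b ^ 2 := by ring
  rw [h3, h5] at hsq
  exact le_of_mul_le_mul_right hsq (by positivity)

end Pool.Agent.Helper78.NA
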