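import Mathlib
import Pool.Agent.Helper78.Core5

set_option autoImplicit false
set_option linter.unusedSectionVars false
open MeasureTheory Set

namespace Pool.Agent.Helper78.NA

open scoped Classical

/-- number of ordered pairs at distance `≤ R` (diagonal included) -/
noncomputable def cpR {E : Type*} [PseudoMetricSpace E] (R : ℝ) (X : Finset E) : ℝ :=
  (((X ×ˢ X).filter (fun x => dist x.1 x.2 ≤ R)).card : ℝ)

section cells
variable {d : ℕ}

/-- the grid cell of side `δ` -/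
noncomputable def cell (δ : ℝ) (x : EuclideanSpace ℝ (Fin d)) : Fin d → ℤ := fun j => ⌊x j / δ⌋

/-- number of ordered pairs in the same cell -/
noncomputable def Mc (δ : ℝ) (X : Finset (EuclideanSpace ℝ (Fin d))) : ℝ :=
  (((X ×ˢ X).filter (fun x => cell δ x.1 = cell δ x.2)).card : ℝ)

theorem shift_le (δ : ℝ) (X : Finset (EuclideanSpace ℝ (Fin d))) (k : Fin d → ℤ) :
    (((X ×ˢ X).filter (fun x => cell δ x.2 = cell δ x.1 + k)).card : ℝ) ≤ Mc δ X := by
  set q := cell (d := d) δ with hq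
  set N : (Fin d → ℤ) → ℝ := fun v => ((X.filter (fun x => q x = v)).card : ℝ) with hN
  obtain ⟨Q, hQ⟩ : ∃ Q : Finset (Fin d → ℤ), Q = X.image q := ⟨_, rfl⟩
  have hmaps : ∀ x ∈ X, q x ∈ Q := fun x hx => hQ ▸ Finset.mem_image_of_mem q hx
  have gen : ∀ k : Fin d → ℤ, (((X ×ˢ X).filter (fun x => q x.2 = q x.1 + k)).card : ℝ) = ∑ v ∈ Q, N v * N (v + k) := by
    intro k
    rw [Finset.card_filter, Nat.cast_sum, Finset.sum_product, ← Finset.sum_fiberwise_of_maps_to hmaps]
    refine Finset.sum_congr rfl (fun v _ => ?_)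
    have h1 : ∀ x ∈ X.filter (fun x => q x = v), ∑ y ∈ X, (((if q y = q x + k then 1 else 0 : ℕ)) : ℝ) = N (v + k) := by
      intro x hx
      rw [Finset.mem_filter] at hx
      rw [hx.2]
      simp only [hN]
      rw [Finset.card_filter, Nat.cast_sum]
    rw [Finset.sum_congr rfl h1, Finset.sum_const, nsmul_eq_mul]
  have hM : Mc δ X = ∑ v ∈ Q, N v * N v := by
    have h0 := gen 0
    simp only [add_zero] at h0
    rw [← h0]
    unfold Mc
    congr 2
    ext x
    simp only [Finset.mem_filter, hq, eq_comm]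
  rw [gen k, hM]
  have h2 : ∑ v ∈ Q, N (v + k) * N (v + k) ≤ ∑ v ∈ Q, N v * N v := by
    have h3 : ∑ v ∈ Q, N (v + k) * N (v + k) = ∑ v ∈ Q.image (fun v => v + k), N v * N v := by
      rw [Finset.sum_image]
      intro a _ b _ hab
      exact add_right_cancel hab
    rw [h3]
    have h4 : ∑ v ∈ Q.image (fun v => v + k), N v * N v = ∑ v ∈ (Q.image (fun v => v + k)).filter (fun v => v ∈ Q), N v * N v := by
      rw [Finset.sum_filter]
      refine Finset.sum_congr rfl (fun v _ => ?_)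
      split_ifs with h5
      · rfl
      · have : N v = 0 := by
          simp only [hN]
          rw [Nat.cast_eq_zero, Finset.card_eq_zero, Finset.filter_eq_empty_iff]
          intro x hx hxv
          exact h5 (hxv ▸ hmaps x hx)
        rw [this]; simp
    rw [h4]
    apply Finset.sum_le_sum_of_subset_of_nonneg
    · intro v hv
      exact (Finset.mem_filter.mp hv).2
    · intro v _ _
      exact mul_self_nonneg _
  have h6 : ∑ v ∈ Q, N v * N (v + k) ≤ ∑ v ∈ Q, (N v * N v + N (v + k) * N (v + k)) / 2 := by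
    refine Finset.sum_le_sum (fun v _ => ?_)
    nlinarith [sq_nonneg (N v - N (v + k))]
  refine h6.trans ?_
  rw [← Finset.sum_div, Finset.sum_add_distrib]
  linarith

theorem cpR_le (δ R : ℝ) (hδ : 0 < δ) (hR : 0 ≤ R) (X : Finset (EuclideanSpace ℝ (Fin d))) :
    cpR R X ≤ (2 * R / δ + 3) ^ d * Mc δ X := by
  set K : ℕ := ⌈R / δ⌉₊ with hK
  set S : Finset (Fin d → ℤ) := Fintype.piFinset (fun _ => Finset.Icc (-(K : ℤ)) K) with hS
  have hcard : (S.card : ℝ) ≤ (2 * R / δ + 3) ^ d := by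
    rw [hS, Fintype.card_piFinset]
    simp only [Int.card_Icc, Finset.prod_const, Finset.card_univ, Fintype.card_fin]
    have h1 : ((K : ℤ) + 1 - -(K : ℤ)).toNat = 2 * K + 1 := by omega
    rw [h1]
    push_cast
    apply pow_le_pow_left₀ (by positivity)
    have h2 : (K : ℝ) < R / δ + 1 := Nat.ceil_lt_add_one (by positivity)
    have h3 : 2 * R / δ = 2 * (R / δ) := by ring
    rw [h3]; linarith
  have hsub : ((X ×ˢ X).filter (fun x => dist x.1 x.2 ≤ R)) ⊆
      S.biUnion (fun k => (X ×ˢ X).filter (fun x => cell δ x.2 = cell δ x.1 + k)) := by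
    intro x hx
    rw [Finset.mem_filter] at hx
    rw [Finset.mem_biUnion]
    refine ⟨cell δ x.2 - cell δ x.1, ?_, ?_⟩
    · rw [hS, Fintype.mem_piFinset]
      intro j
      have h1 : |x.1 j - x.2 j| ≤ R := by
        refine le_trans ?_ hx.2
        have := EuclideanSpace.dist_eq x.1 x.2
        rw [this]
        apply Real.le_sqrt_of_sq_le
        have h2 : |x.1 j - x.2 j| ^ 2 = dist (x.1 j) (x.2 j) ^ 2 := by rw [Real.dist_eq]
        rw [h2]
        exact Finset.single_le_sum (f := fun j => dist (x.1 j) (x.2 j) ^ 2) (fun i _ => by positivity) (Finset.mem_univ j)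
      rw [abs_le] at h1
      have h2 : (⌊x.2 j / δ⌋ : ℝ) ≤ x.2 j / δ := Int.floor_le _
      have h3 : x.2 j / δ < ⌊x.2 j / δ⌋ + 1 := Int.lt_floor_add_one _
      have h4 : (⌊x.1 j / δ⌋ : ℝ) ≤ x.1 j / δ := Int.floor_le _
      have h5 : x.1 j / δ < ⌊x.1 j / δ⌋ + 1 := Int.lt_floor_add_one _
      have h6 : x.2 j / δ - x.1 j / δ ≤ R / δ := by
        rw [← sub_div]; apply div_le_div_of_nonneg_right _ hδ.le; linarith
      have h7 : -(R / δ) ≤ x.2 j / δ - x.1 j / δ := by
        rw [← sub_div, ← neg_div]; apply div_le_div_of_nonneg_right _ hδ.le; linarith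
      have h8 : R / δ ≤ (K : ℝ) := Nat.le_ceil _
      simp only [Pi.sub_apply, cell, Finset.mem_Icc]
      constructor
      · have : (-(K : ℤ) - 1 : ℤ) < ⌊x.2 j / δ⌋ - ⌊x.1 j / δ⌋ := by
          have : ((-(K : ℤ) - 1 : ℤ) : ℝ) < ((⌊x.2 j / δ⌋ - ⌊x.1 j / δ⌋ : ℤ) : ℝ) := by
            push_cast; linarith
          exact_mod_cast this
        omega
      · have : ⌊x.2 j / δ⌋ - ⌊x.1 j / δ⌋ < (K : ℤ) + 1 := by
          have : ((⌊x.2 j / δ⌋ - ⌊x.1 j / δ⌋ : ℤ) : ℝ) < (((K : ℤ) + 1 : ℤ) : ℝ) := by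
            push_cast; linarith
          exact_mod_cast this
        omega
    · rw [Finset.mem_filter]
      exact ⟨hx.1, by abel⟩
  have h1 : cpR R X ≤ ∑ k ∈ S, (((X ×ˢ X).filter (fun x => cell δ x.2 = cell δ x.1 + k)).card : ℝ) := by
    unfold cpR
    have := (Finset.card_le_card hsub).trans Finset.card_biUnion_le
    exact_mod_cast this
  have hM0 : 0 ≤ Mc δ X := by unfold Mc; positivity
  calc cpR R X ≤ _ := h1
    _ ≤ ∑ k ∈ S, Mc δ X := Finset.sum_le_sum (fun k _ => shift_le δ X k)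
    _ = (S.card : ℝ) * Mc δ X := by rw [Finset.sum_const, nsmul_eq_mul]
    _ ≤ _ := by gcongr

theorem same_cell_dist {δ : ℝ} (hδ : 0 < δ) {x y : EuclideanSpace ℝ (Fin d)} (h : cell δ x = cell δ y) :
    dist x y ≤ Real.sqrt d * δ := by
  rw [EuclideanSpace.dist_eq]
  have h1 : ∀ j, dist (x j) (y j) ^ 2 ≤ δ ^ 2 := by
    intro j
    have h2 : ⌊x j / δ⌋ = ⌊y j / δ⌋ := congrFun h j
    have h3 := Int.abs_sub_lt_one_of_floor_eq_floor h2
    rw [← sub_div, abs_div, abs_of_pos hδ, div_lt_one hδ] at h3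
    rw [Real.dist_eq]
    exact pow_le_pow_left₀ (abs_nonneg _) h3.le 2
  have h2 : ∑ j, dist (x j) (y j) ^ 2 ≤ (d : ℝ) * δ ^ 2 := by
    calc _ ≤ ∑ _j : Fin d, δ ^ 2 := Finset.sum_le_sum (fun j _ => h1 j)
      _ = _ := by rw [Finset.sum_const, Finset.card_univ, Fintype.card_fin, nsmul_eq_mul]
  calc _ ≤ Real.sqrt ((d : ℝ) * δ ^ 2) := Real.sqrt_le_sqrt h2
    _ = _ := by rw [Real.sqrt_mul (by positivity), Real.sqrt_sq hδ.le]

end cells

end Pool.Agent.Helper78.NA
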