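import Mathlib
import Pool.Agent.Helper78.Comb

set_option autoImplicit false
set_option linter.unusedSectionVars false
open MeasureTheory Set

namespace Pool.Agent.Helper78.NA

open scoped Classical

/-- drop the coordinate `i` -/
noncomputable def drop {n : ℕ} (i : Fin (n + 1)) (x : EuclideanSpace ℝ (Fin (n + 1))) :
    EuclideanSpace ℝ (Fin n) := WithLp.toLp 2 (fun j => x (i.succAbove j))

theorem dist_sq_eq {n : ℕ} (i : Fin (n + 1)) (x y : EuclideanSpace ℝ (Fin (n + 1))) :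
    dist x y ^ 2 = ‖drop i x - drop i y‖ ^ 2 + (y i - x i) ^ 2 := by
  rw [EuclideanSpace.dist_eq, Real.sq_sqrt (Finset.sum_nonneg (fun _ _ => by positivity)),
    Fin.sum_univ_succAbove _ i, EuclideanSpace.norm_sq_eq]
  simp only [drop, PiLp.sub_apply, Real.dist_eq, sq_abs, Real.norm_eq_abs]
  ring

/-- the elementary height estimate -/
theorem height {a a' v h c ε : ℝ} (ha : 0 ≤ a) (hc : 0 < c) (hv : c ≤ v) (hh : 0 ≤ h)
    (hε : 0 < ε) (h1 : a ≤ a' + 2 * ε) (h2 : 1 - 2 * ε ≤ a ^ 2 + v ^ 2) (h2' : a ^ 2 + v ^ 2 ≤ 1)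
    (h3 : a' ^ 2 + (v + h) ^ 2 ≤ 1) : h ≤ 3 * ε / c := by
  have ha1 : a ≤ 1 := by nlinarith [sq_nonneg v]
  have h4 : a ^ 2 - 4 * ε ≤ a' ^ 2 := by
    by_cases h5 : 2 * ε ≤ a
    · have : (a - 2 * ε) ^ 2 ≤ a' ^ 2 := pow_le_pow_left₀ (by linarith) (by linarith) 2
      nlinarith
    · push Not at h5
      nlinarith [sq_nonneg a']
  rw [le_div_iff₀ hc]
  nlinarith [mul_nonneg hh (sub_nonneg.mpr hv), sq_nonneg h]

section
variable {n : ℕ} (i : Fin (n + 1)) (X : Finset (EuclideanSpace ℝ (Fin (n + 1)))) (ε c : ℝ)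

/-- lower ends of the nearly antipodal pairs pointing in the direction `i` -/
noncomputable def lowS : Finset (EuclideanSpace ℝ (Fin (n + 1))) :=
  X.filter (fun x => ∃ y ∈ X, 1 - ε ≤ dist x y ∧ c ≤ y i - x i)

/-- upper ends -/
noncomputable def upS : Finset (EuclideanSpace ℝ (Fin (n + 1))) :=
  X.filter (fun y => ∃ x ∈ X, 1 - ε ≤ dist x y ∧ c ≤ y i - x i)

variable {i X ε c}

theorem dist_of_drop {x x' : EuclideanSpace ℝ (Fin (n + 1))} (hc : 0 < c) (hε : 0 < ε)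
    (h1 : dist (drop i x) (drop i x') < 2 * ε) (h2 : |x' i - x i| ≤ 3 * ε / c) :
    dist x x' ≤ (3 / c + 2) * ε := by
  have h3 : dist x x' ^ 2 ≤ ((3 / c + 2) * ε) ^ 2 := by
    rw [dist_sq_eq i, ← dist_eq_norm]
    have h4 : dist (drop i x) (drop i x') ^ 2 ≤ (2 * ε) ^ 2 := pow_le_pow_left₀ dist_nonneg h1.le 2
    have h5 : (x' i - x i) ^ 2 ≤ (3 * ε / c) ^ 2 := by
      rw [← sq_abs (x' i - x i)]
      exact pow_le_pow_left₀ (abs_nonneg _) h2 2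
    have h6 : ((3 / c + 2) * ε) ^ 2 = (3 * ε / c) ^ 2 + (2 * ε) ^ 2 + 2 * (3 * ε / c) * (2 * ε) := by ring
    have h7 : 0 ≤ 2 * (3 * ε / c) * (2 * ε) := by positivity
    linarith
  exact le_of_sq_le_sq h3 (by positivity)

theorem sq_ge_of_dist {x y : EuclideanSpace ℝ (Fin (n + 1))} (hε : 0 < ε) (hε2 : ε ≤ 1 / 2) (h : 1 - ε ≤ dist x y) :
    1 - 2 * ε ≤ ‖drop i x - drop i y‖ ^ 2 + (y i - x i) ^ 2 := by
  rw [← dist_sq_eq i]
  have : (1 - ε) ^ 2 ≤ dist x y ^ 2 := pow_le_pow_left₀ (by linarith) h 2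
  nlinarith [sq_nonneg ε]

theorem sq_le_of_dist {x y : EuclideanSpace ℝ (Fin (n + 1))} (h : dist x y ≤ 1) :
    ‖drop i x - drop i y‖ ^ 2 + (y i - x i) ^ 2 ≤ 1 := by
  rw [← dist_sq_eq i]
  calc dist x y ^ 2 ≤ 1 ^ 2 := pow_le_pow_left₀ dist_nonneg h 2
    _ = 1 := one_pow 2

/-- one-sided version -/
theorem low_aux (hc : 0 < c) (hε : 0 < ε) (hε2 : ε ≤ 1 / 2) {x x' y : EuclideanSpace ℝ (Fin (n + 1))}
    (hxy : dist x y ≤ 1) (hx'y1 : dist x' y ≤ 1) (hx'y : 1 - ε ≤ dist x' y) (hcy : c ≤ y i - x' i)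
    (hd : dist (drop i x) (drop i x') < 2 * ε) (hle : x i ≤ x' i) : x' i - x i ≤ 3 * ε / c := by
  have h1 := sq_ge_of_dist (i := i) hε hε2 hx'y
  have h1' := sq_le_of_dist (i := i) hx'y1
  have h2 := sq_le_of_dist (i := i) hxy
  have h3 : y i - x i = (y i - x' i) + (x' i - x i) := by ring
  rw [h3] at h2
  refine height (norm_nonneg _) hc hcy (by linarith) hε ?_ h1 h1' h2
  have h4 : drop i x' - drop i y = (drop i x - drop i y) + (drop i x' - drop i x) := by abel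
  have h5 := norm_add_le (drop i x - drop i y) (drop i x' - drop i x)
  rw [← h4] at h5
  rw [dist_comm, dist_eq_norm] at hd
  linarith

theorem up_aux (hc : 0 < c) (hε : 0 < ε) (hε2 : ε ≤ 1 / 2) {y y' x : EuclideanSpace ℝ (Fin (n + 1))}
    (hxy : dist x y ≤ 1) (hx'y1 : dist x y' ≤ 1) (hx'y : 1 - ε ≤ dist x y') (hcy : c ≤ y' i - x i)
    (hd : dist (drop i y) (drop i y') < 2 * ε) (hle : y' i ≤ y i) : y i - y' i ≤ 3 * ε / c := by
  have h1 := sq_ge_of_dist (i := i) hε hε2 hx'y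
  have h1' := sq_le_of_dist (i := i) hx'y1
  have h2 := sq_le_of_dist (i := i) hxy
  have h3 : y i - x i = (y' i - x i) + (y i - y' i) := by ring
  rw [h3] at h2
  refine height (norm_nonneg _) hc hcy (by linarith) hε ?_ h1 h1' h2
  have h4 : drop i x - drop i y' = (drop i x - drop i y) + (drop i y - drop i y') := by abel
  have h5 := norm_add_le (drop i x - drop i y) (drop i y - drop i y')
  rw [← h4] at h5
  rw [dist_eq_norm] at hd
  linarith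

theorem cp_low (hc : 0 < c) (hε : 0 < ε) (hε2 : ε ≤ 1 / 2) (hX : ∀ x ∈ X, ∀ y ∈ X, dist x y ≤ 1) :
    cp ε (lowS i X ε c) (drop i) ≤ cpR ((3 / c + 2) * ε) X := by
  unfold cp cpR
  rw [Nat.cast_le]
  apply Finset.card_le_card
  intro p hp
  rw [Finset.mem_filter, Finset.mem_product] at hp ⊢
  obtain ⟨⟨h1, h2⟩, h3⟩ := hp
  unfold lowS at h1 h2
  rw [Finset.mem_filter] at h1 h2
  refine ⟨⟨h1.1, h2.1⟩, dist_of_drop hc hε h3 ?_⟩
  obtain ⟨y1, hy1, hy1a, hy1b⟩ := h1.2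
  obtain ⟨y2, hy2, hy2a, hy2b⟩ := h2.2
  rcases le_total (p.1 i) (p.2 i) with h | h
  · rw [abs_of_nonneg (by linarith)]
    exact low_aux hc hε hε2 (hX _ h1.1 _ hy2) (hX _ h2.1 _ hy2) hy2a hy2b h3 h
  · rw [abs_sub_comm, abs_of_nonneg (by linarith)]
    exact low_aux hc hε hε2 (hX _ h2.1 _ hy1) (hX _ h1.1 _ hy1) hy1a hy1b (by rwa [dist_comm]) h

theorem cp_up (hc : 0 < c) (hε : 0 < ε) (hε2 : ε ≤ 1 / 2) (hX : ∀ x ∈ X, ∀ y ∈ X, dist x y ≤ 1) :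
    cp ε (upS i X ε c) (drop i) ≤ cpR ((3 / c + 2) * ε) X := by
  unfold cp cpR
  rw [Nat.cast_le]
  apply Finset.card_le_card
  intro p hp
  rw [Finset.mem_filter, Finset.mem_product] at hp ⊢
  obtain ⟨⟨h1, h2⟩, h3⟩ := hp
  unfold upS at h1 h2
  rw [Finset.mem_filter] at h1 h2
  refine ⟨⟨h1.1, h2.1⟩, dist_of_drop hc hε h3 ?_⟩
  obtain ⟨y1, hy1, hy1a, hy1b⟩ := h1.2
  obtain ⟨y2, hy2, hy2a, hy2b⟩ := h2.2
  rcases le_total (p.1 i) (p.2 i) with h | h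
  · rw [abs_of_nonneg (by linarith)]
    exact up_aux hc hε hε2 (hX _ hy1 _ h2.1) (hX _ hy1 _ h1.1) hy1a hy1b (by rwa [dist_comm]) h
  · rw [abs_sub_comm, abs_of_nonneg (by linarith)]
    exact up_aux hc hε hε2 (hX _ hy2 _ h1.1) (hX _ hy2 _ h2.1) hy2a hy2b h3 h

end

/-- directed nearly antipodal pairs -/
noncomputable def adjS {n : ℕ} (i : Fin (n + 1)) (X : Finset (EuclideanSpace ℝ (Fin (n + 1)))) (ε c : ℝ) :
    Finset (EuclideanSpace ℝ (Fin (n + 1)) × EuclideanSpace ℝ (Fin (n + 1))) :=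
  (X ×ˢ X).filter (fun x => 1 - ε ≤ dist x.1 x.2 ∧ c ≤ x.2 i - x.1 i)

theorem adj_bound (n : ℕ) (c : ℝ) (hc : 0 < c) (hc1 : c ≤ 1) : ∃ C : ℝ, 0 < C ∧ ∀ ε : ℝ, 0 < ε → ε ≤ 1 / 2 →
    ∀ X : Finset (EuclideanSpace ℝ (Fin (n + 1))), (∀ x ∈ X, ∀ y ∈ X, dist x y ≤ 1) → ∀ i : Fin (n + 1),
    ((adjS i X ε c).card : ℝ) ≤ C * ε ^ (-((n : ℝ) / 2)) * cpR ((3 / c + 2) * ε) X := by
  obtain ⟨C, hC, hcore⟩ := core (V := EuclideanSpace ℝ (Fin n)) (ι := EuclideanSpace ℝ (Fin (n + 1)))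
    (κ := EuclideanSpace ℝ (Fin (n + 1))) c hc hc1
  refine ⟨2 * Real.sqrt C, by positivity, ?_⟩
  intro ε hε hε2 X hX i
  have h1 := hcore ε hε hε2 (lowS i X ε c) (upS i X ε c) (drop i) (fun x => x i) (drop i) (fun x => x i) (by
    intro x hx y hy
    unfold lowS at hx
    unfold upS at hy
    rw [Finset.mem_filter] at hx hy
    exact sq_le_of_dist (hX x hx.1 y hy.1))
  rw [finrank_euclideanSpace_fin] at h1
  have h2 : adjS i X ε c ⊆ ((lowS i X ε c ×ˢ upS i X ε c).filter (fun x => 1 - 2 * ε ≤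
      ‖drop i x.1 - drop i x.2‖ ^ 2 + (x.2 i - x.1 i) ^ 2 ∧ c ≤ x.2 i - x.1 i)) := by
    intro x hx
    unfold adjS at hx
    rw [Finset.mem_filter, Finset.mem_product] at hx
    rw [Finset.mem_filter, Finset.mem_product]
    unfold lowS upS
    rw [Finset.mem_filter, Finset.mem_filter]
    exact ⟨⟨⟨hx.1.1, x.2, hx.1.2, hx.2⟩, ⟨hx.1.2, x.1, hx.1.1, hx.2⟩⟩, sq_ge_of_dist hε hε2 hx.2.1, hx.2.2⟩
  have h3 : ((adjS i X ε c).card : ℝ) ^ 2 ≤ (((lowS i X ε c ×ˢ upS i X ε c).filter (fun x => 1 - 2 * ε ≤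
      ‖drop i x.1 - drop i x.2‖ ^ 2 + (x.2 i - x.1 i) ^ 2 ∧ c ≤ x.2 i - x.1 i)).card : ℝ) ^ 2 := by
    have := Finset.card_le_card h2
    gcongr
  have h4 := cp_low (i := i) hc hε hε2 hX
  have h5 := cp_up (i := i) hc hε hε2 hX
  have h6 : 0 ≤ cp ε (lowS i X ε c) (drop i) := by unfold cp; positivity
  have h7 : 0 ≤ cp ε (upS i X ε c) (drop i) := by unfold cp; positivity
  set R := cpR ((3 / c + 2) * ε) X with hR
  have hR0 : 0 ≤ R := by rw [hR]; unfold cpR; positivity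
  have h8 : (cp ε (lowS i X ε c) (drop i) + cp ε (upS i X ε c) (drop i)) ^ 2 ≤ (2 * R) ^ 2 :=
    pow_le_pow_left₀ (by positivity) (by linarith) 2
  have h9 : ε ^ n * ((adjS i X ε c).card : ℝ) ^ 2 ≤ C * (2 * R) ^ 2 := by
    calc _ ≤ _ := mul_le_mul_of_nonneg_left h3 (by positivity)
      _ ≤ _ := h1
      _ ≤ _ := mul_le_mul_of_nonneg_left h8 hC.le
  have h10 : ((adjS i X ε c).card : ℝ) ^ 2 ≤ (2 * Real.sqrt C * ε ^ (-((n : ℝ) / 2)) * R) ^ 2 := by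
    have h11 : (ε ^ (-((n : ℝ) / 2))) ^ 2 = (ε ^ n)⁻¹ := by
      rw [← Real.rpow_natCast (ε ^ (-((n : ℝ) / 2))), ← Real.rpow_mul hε.le, ← Real.rpow_natCast ε n, ← Real.rpow_neg hε.le]
      congr 1
      push_cast
      ring
    have h12 : (2 * Real.sqrt C * ε ^ (-((n : ℝ) / 2)) * R) ^ 2 = (C * (2 * R) ^ 2) / ε ^ n := by
      rw [mul_pow, mul_pow, mul_pow, Real.sq_sqrt hC.le, h11]
      field_simp
    rw [h12, le_div_iff₀ (by positivity)]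
    linarith
  exact le_of_sq_le_sq h10 (by positivity)

end Pool.Agent.Helper78.NA
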