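import Mathlib
import Pool.Agent.Helper78.Geom

set_option autoImplicit false
set_option linter.unusedSectionVars false
open MeasureTheory Set

namespace Pool.Agent.Helper78.NA

open Classical

theorem exists_coord {n : ℕ} {x y : EuclideanSpace ℝ (Fin (n + 1))} (h : 1 / 2 ≤ dist x y) :
    ∃ i : Fin (n + 1), 1 / (2 * Real.sqrt ((n + 1 : ℕ) : ℝ)) ≤ |y i - x i| := by
  by_contra hcon
  push Not at hcon
  have hD : (0 : ℝ) < ((n + 1 : ℕ) : ℝ) := by positivity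
  have hs : 0 < Real.sqrt ((n + 1 : ℕ) : ℝ) := Real.sqrt_pos.mpr hD
  have h1 : dist x y ^ 2 < 1 / 4 := by
    rw [EuclideanSpace.dist_eq, Real.sq_sqrt (Finset.sum_nonneg (fun _ _ => by positivity))]
    have h2 : ∀ j ∈ (Finset.univ : Finset (Fin (n + 1))), dist (x j) (y j) ^ 2 < (1 / (2 * Real.sqrt ((n + 1 : ℕ) : ℝ))) ^ 2 := by
      intro j _
      rw [Real.dist_eq, abs_sub_comm]
      exact pow_lt_pow_left₀ (hcon j) (abs_nonneg _) (by norm_num)
    have h3 := Finset.sum_lt_sum_of_nonempty (Finset.univ_nonempty) h2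
    refine h3.trans_le (le_of_eq ?_)
    rw [Finset.sum_const, Finset.card_univ, Fintype.card_fin, nsmul_eq_mul, div_pow, mul_pow, Real.sq_sqrt hD.le]
    field_simp
    norm_num
  have h2 : (1 / 2 : ℝ) ^ 2 ≤ dist x y ^ 2 := pow_le_pow_left₀ (by norm_num) h 2
  norm_num at h2
  linarith

theorem anti_le {n : ℕ} {ε : ℝ} (hε2 : ε ≤ 1 / 2) (X : Finset (EuclideanSpace ℝ (Fin (n + 1)))) :
    ((X.offDiag.filter (fun p => 1 - ε ≤ dist p.1 p.2)).card : ℝ) ≤
      ∑ i : Fin (n + 1), 2 * ((adjS i X ε (1 / (2 * Real.sqrt ((n + 1 : ℕ) : ℝ)))).card : ℝ) := by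
  set c : ℝ := 1 / (2 * Real.sqrt ((n + 1 : ℕ) : ℝ)) with hc
  have hsub : (X.offDiag.filter (fun p => 1 - ε ≤ dist p.1 p.2)) ⊆
      Finset.univ.biUnion (fun i : Fin (n + 1) => adjS i X ε c ∪ (adjS i X ε c).image Prod.swap) := by
    intro p hp
    rw [Finset.mem_filter, Finset.mem_offDiag] at hp
    obtain ⟨i, hi⟩ := exists_coord (x := p.1) (y := p.2) (by linarith)
    rw [Finset.mem_biUnion]
    refine ⟨i, Finset.mem_univ _, ?_⟩
    rw [Finset.mem_union]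
    rcases le_abs.mp hi with h | h
    · left
      unfold adjS
      rw [Finset.mem_filter, Finset.mem_product]
      exact ⟨⟨hp.1.1, hp.1.2.1⟩, hp.2, h⟩
    · right
      rw [Finset.mem_image]
      refine ⟨(p.2, p.1), ?_, rfl⟩
      unfold adjS
      rw [Finset.mem_filter, Finset.mem_product]
      refine ⟨⟨hp.1.2.1, hp.1.1⟩, by rw [dist_comm]; exact hp.2, ?_⟩
      simp only
      linarith
  have h1 := (Finset.card_le_card hsub).trans Finset.card_biUnion_le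
  have h2 : ∀ i ∈ (Finset.univ : Finset (Fin (n + 1))), (adjS i X ε c ∪ (adjS i X ε c).image Prod.swap).card ≤ 2 * (adjS i X ε c).card := by
    intro i _
    refine (Finset.card_union_le _ _).trans ?_
    have := Finset.card_image_le (s := adjS i X ε c) (f := Prod.swap)
    omega
  have h3 := h1.trans (Finset.sum_le_sum h2)
  have h4 : ((X.offDiag.filter (fun p => 1 - ε ≤ dist p.1 p.2)).card : ℝ) ≤ ((∑ i : Fin (n + 1), 2 * (adjS i X ε c).card : ℕ) : ℝ) := by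
    exact_mod_cast h3
  refine h4.trans (le_of_eq ?_)
  push_cast
  rfl

theorem case1 (n : ℕ) : ∃ c₁ c₂ : ℝ, 0 < c₁ ∧ 0 < c₂ ∧ ∀ ε₁ ε₂ : ℝ, 0 < ε₁ → ε₁ < 1 → 0 < ε₂ → ε₂ < 1 →
    ε₁ ≤ ε₂ → ∀ X : Finset (EuclideanSpace ℝ (Fin (n + 1))), (∀ x ∈ X, ∀ y ∈ X, dist x y ≤ 1) →
    c₁ * ε₁ ^ (-(((n + 1 : ℕ)) : ℝ)) ≤ (X.card : ℝ) →
    c₂ * ε₁ ^ (((n + 1 : ℕ)) : ℝ) * ε₂ ^ (-(((((n + 1 : ℕ)) : ℝ) + 1) / 2)) *
        ((X.offDiag.filter (fun p => 1 - ε₂ ≤ dist p.1 p.2)).card : ℝ)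
      ≤ ((X.offDiag.filter (fun p => dist p.1 p.2 ≤ ε₁)).card : ℝ) := by
  set D : ℝ := (((n + 1 : ℕ)) : ℝ) with hD
  have hD0 : 0 < D := by rw [hD]; positivity
  have hD1 : 1 ≤ D := by rw [hD]; exact_mod_cast (by omega : 1 ≤ n + 1)
  have hs : 1 ≤ Real.sqrt D := by rw [Real.one_le_sqrt]; exact hD1
  set c : ℝ := 1 / (2 * Real.sqrt D) with hc
  have hc0 : 0 < c := by positivity
  have hc1 : c ≤ 1 := by
    rw [hc, div_le_one (by positivity)]; linarith
  obtain ⟨C, hC, hadj⟩ := adj_bound n c hc0 hc1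
  set R₀ : ℝ := 3 / c + 2 with hR₀
  have hR₀0 : 0 < R₀ := by positivity
  set G : ℝ := 2 * Real.sqrt D + 3 with hG
  have hG0 : 0 < G := by positivity
  set G₂ : ℝ := 2 * R₀ * Real.sqrt D + 3 with hG₂
  have hG₂0 : 0 < G₂ := by positivity
  set C₃ : ℝ := 2 * D * C * G₂ ^ (n + 1) + 2 ^ (n + 2) * G ^ (n + 1) with hC₃
  have hC₃0 : 0 < C₃ := by positivity
  refine ⟨2 * G ^ (n + 1), 1 / (2 * C₃), by positivity, by positivity, ?_⟩
  intro ε₁ ε₂ h1 h1' h2 h2' h12 X hX hcard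
  set δ : ℝ := ε₁ / Real.sqrt D with hδ
  have hδ0 : 0 < δ := by positivity
  set M : ℝ := Mc δ X with hM
  have hM0 : 0 ≤ M := by rw [hM]; unfold Mc; positivity
  set Nn : ℝ := ((X.offDiag.filter (fun p => dist p.1 p.2 ≤ ε₁)).card : ℝ) with hNn
  set An : ℝ := ((X.offDiag.filter (fun p => 1 - ε₂ ≤ dist p.1 p.2)).card : ℝ) with hAn
  have hAn0 : 0 ≤ An := by rw [hAn]; positivity
  -- all pairs
  have hall : (X.card : ℝ) ^ 2 = cpR 1 X := by
    unfold cpR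
    have : (X ×ˢ X).filter (fun x => dist x.1 x.2 ≤ 1) = X ×ˢ X := by
      rw [Finset.filter_eq_self]
      intro x hx
      rw [Finset.mem_product] at hx
      exact hX _ hx.1 _ hx.2
    rw [this, Finset.card_product]
    push_cast
    ring
  have hXM : (X.card : ℝ) ^ 2 ≤ G ^ (n + 1) * (ε₁ ^ (n + 1))⁻¹ * M := by
    rw [hall]
    refine (cpR_le δ 1 hδ0 (by norm_num) X).trans ?_
    have h3 : 2 * 1 / δ + 3 ≤ G / ε₁ := by
      rw [hδ, hG, le_div_iff₀ h1]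
      have : (2 * 1 / (ε₁ / Real.sqrt D) + 3) * ε₁ = 2 * Real.sqrt D + 3 * ε₁ := by field_simp
      rw [this]; linarith
    calc (2 * 1 / δ + 3) ^ (n + 1) * Mc δ X ≤ (G / ε₁) ^ (n + 1) * Mc δ X := by gcongr
      _ = _ := by rw [div_pow]; rfl
  have hpow1 : ε₁ ^ (-D) = (ε₁ ^ (n + 1))⁻¹ := by
    rw [Real.rpow_neg h1.le, hD, Real.rpow_natCast]
  have hpow2 : ε₁ ^ D = ε₁ ^ (n + 1) := by
    rw [hD, Real.rpow_natCast]
  rw [hpow1] at hcard
  have he1 : 0 < ε₁ ^ (n + 1) := by positivity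
  have hXpos : 0 < (X.card : ℝ) := lt_of_lt_of_le (by positivity) hcard
  have h2X : 2 * (X.card : ℝ) ≤ M := by
    have h3 : (2 * G ^ (n + 1) * (ε₁ ^ (n + 1))⁻¹) * (X.card : ℝ) ≤ (X.card : ℝ) * (X.card : ℝ) :=
      mul_le_mul_of_nonneg_right hcard hXpos.le
    have h4 : (G ^ (n + 1) * (ε₁ ^ (n + 1))⁻¹) * (2 * (X.card : ℝ)) ≤ (G ^ (n + 1) * (ε₁ ^ (n + 1))⁻¹) * M := by
      calc _ = (2 * G ^ (n + 1) * (ε₁ ^ (n + 1))⁻¹) * (X.card : ℝ) := by ring
        _ ≤ (X.card : ℝ) * (X.card : ℝ) := h3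
        _ = (X.card : ℝ) ^ 2 := by ring
        _ ≤ _ := hXM
    exact le_of_mul_le_mul_left h4 (by positivity)
  have hMN : M ≤ (X.card : ℝ) + Nn := by
    have hsub : (X ×ˢ X).filter (fun x => cell δ x.1 = cell δ x.2) ⊆
        X.image (fun x => (x, x)) ∪ X.offDiag.filter (fun p => dist p.1 p.2 ≤ ε₁) := by
      intro p hp
      rw [Finset.mem_filter, Finset.mem_product] at hp
      rw [Finset.mem_union]
      by_cases h3 : p.1 = p.2
      · left
        rw [Finset.mem_image]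
        exact ⟨p.1, hp.1.1, by ext1 <;> simp [h3]⟩
      · right
        rw [Finset.mem_filter, Finset.mem_offDiag]
        refine ⟨⟨hp.1.1, hp.1.2, h3⟩, ?_⟩
        have h4 := same_cell_dist hδ0 hp.2
        refine h4.trans (le_of_eq ?_)
        rw [hδ]
        field_simp
        rw [hD]
    have h3 := (Finset.card_le_card hsub).trans (Finset.card_union_le _ _)
    have h4 : (X.image (fun x => (x, x))).card ≤ X.card := Finset.card_image_le
    have h5 : ((X ×ˢ X).filter (fun x => cell δ x.1 = cell δ x.2)).card ≤ X.card + (X.offDiag.filter (fun p => dist p.1 p.2 ≤ ε₁)).card := by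
      omega
    rw [hM, hNn]
    unfold Mc
    exact_mod_cast h5
  have hN : M / 2 ≤ Nn := by linarith
  -- the bound for the antipodal pairs
  have hmain : ε₁ ^ (n + 1) * ε₂ ^ (-((D + 1) / 2)) * An ≤ C₃ * M := by
    by_cases hcase : ε₂ ≤ 1 / 2
    · have h3 : An ≤ ∑ i : Fin (n + 1), 2 * ((adjS i X ε₂ c).card : ℝ) := anti_le hcase X
      have h4 : ∀ i : Fin (n + 1), ((adjS i X ε₂ c).card : ℝ) ≤ C * ε₂ ^ (-((n : ℝ) / 2)) * cpR (R₀ * ε₂) X :=
        fun i => hadj ε₂ h2 hcase X hX i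
      have h5 : An ≤ D * (2 * (C * ε₂ ^ (-((n : ℝ) / 2)) * cpR (R₀ * ε₂) X)) := by
        calc An ≤ _ := h3
          _ ≤ ∑ i : Fin (n + 1), 2 * (C * ε₂ ^ (-((n : ℝ) / 2)) * cpR (R₀ * ε₂) X) :=
            Finset.sum_le_sum (fun i _ => mul_le_mul_of_nonneg_left (h4 i) (by norm_num))
          _ = _ := by rw [Finset.sum_const, Finset.card_univ, Fintype.card_fin, nsmul_eq_mul]
      have h6 : cpR (R₀ * ε₂) X ≤ (G₂ * (ε₂ / ε₁)) ^ (n + 1) * M := by
        refine (cpR_le δ (R₀ * ε₂) hδ0 (by positivity) X).trans ?_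
        have h7 : 2 * (R₀ * ε₂) / δ + 3 ≤ G₂ * (ε₂ / ε₁) := by
          have h8 : 1 ≤ ε₂ / ε₁ := by rw [le_div_iff₀ h1]; linarith
          have h9 : 2 * (R₀ * ε₂) / δ = (2 * R₀ * Real.sqrt D) * (ε₂ / ε₁) := by
            rw [hδ]; field_simp
          rw [h9, hG₂]
          nlinarith
        gcongr
      have h7 : An ≤ D * (2 * (C * ε₂ ^ (-((n : ℝ) / 2)) * ((G₂ * (ε₂ / ε₁)) ^ (n + 1) * M))) := by
        refine h5.trans ?_
        gcongr
      have h8 : ε₂ ^ (-((D + 1) / 2)) * ε₂ ^ (-((n : ℝ) / 2)) * ε₂ ^ (n + 1) = 1 := by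
        rw [← Real.rpow_add h2, ← Real.rpow_natCast ε₂ (n + 1), ← Real.rpow_add h2]
        have : -((D + 1) / 2) + -((n : ℝ) / 2) + ((n + 1 : ℕ) : ℝ) = 0 := by
          rw [hD]; push_cast; ring
        rw [this, Real.rpow_zero]
      calc ε₁ ^ (n + 1) * ε₂ ^ (-((D + 1) / 2)) * An
          ≤ ε₁ ^ (n + 1) * ε₂ ^ (-((D + 1) / 2)) * (D * (2 * (C * ε₂ ^ (-((n : ℝ) / 2)) * ((G₂ * (ε₂ / ε₁)) ^ (n + 1) * M)))) := by
            gcongr
        _ = (2 * D * C * G₂ ^ (n + 1)) * M * (ε₂ ^ (-((D + 1) / 2)) * ε₂ ^ (-((n : ℝ) / 2)) * ε₂ ^ (n + 1)) := by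
            rw [mul_pow, div_pow]
            field_simp
        _ = (2 * D * C * G₂ ^ (n + 1)) * M := by rw [h8, mul_one]
        _ ≤ C₃ * M := by
            apply mul_le_mul_of_nonneg_right _ hM0
            rw [hC₃]
            have : 0 ≤ (2 : ℝ) ^ (n + 2) * G ^ (n + 1) := by positivity
            linarith
    · push Not at hcase
      have h3 : An ≤ (X.card : ℝ) ^ 2 := by
        rw [hAn]
        have h4 : (X.offDiag.filter (fun p => 1 - ε₂ ≤ dist p.1 p.2)).card ≤ X.card * X.card := by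
          refine (Finset.card_filter_le _ _).trans ?_
          rw [Finset.offDiag_card]
          omega
        rw [pow_two]
        exact_mod_cast h4
      have h5 : ε₂ ^ (-((D + 1) / 2)) ≤ 2 ^ (n + 2) := by
        have h6 : ε₂ ^ (-((D + 1) / 2)) ≤ (1 / 2 : ℝ) ^ (-((D + 1) / 2)) :=
          Real.rpow_le_rpow_of_nonpos (by norm_num) hcase.le (by linarith)
        refine h6.trans ?_
        rw [one_div, Real.inv_rpow (by norm_num), Real.rpow_neg (by norm_num), inv_inv, ← Real.rpow_natCast]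
        apply Real.rpow_le_rpow_of_exponent_le (by norm_num)
        rw [hD]
        push_cast
        have : (0 : ℝ) ≤ (n : ℝ) := by positivity
        linarith
      calc ε₁ ^ (n + 1) * ε₂ ^ (-((D + 1) / 2)) * An
          ≤ ε₁ ^ (n + 1) * 2 ^ (n + 2) * (G ^ (n + 1) * (ε₁ ^ (n + 1))⁻¹ * M) := by
            have := h3.trans hXM
            gcongr
        _ = (2 ^ (n + 2) * G ^ (n + 1)) * M := by field_simp
        _ ≤ C₃ * M := by
            apply mul_le_mul_of_nonneg_right _ hM0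
            rw [hC₃]
            have : 0 ≤ 2 * D * C * G₂ ^ (n + 1) := by positivity
            linarith
  rw [hpow2]
  calc 1 / (2 * C₃) * ε₁ ^ (n + 1) * ε₂ ^ (-((D + 1) / 2)) * An
      = 1 / (2 * C₃) * (ε₁ ^ (n + 1) * ε₂ ^ (-((D + 1) / 2)) * An) := by ring
    _ ≤ 1 / (2 * C₃) * (C₃ * M) := by gcongr
    _ = M / 2 := by field_simp
    _ ≤ Nn := hN

end Pool.Agent.Helper78.NA
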